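import Pool.Agent.MP_c357a0_lc.Defs

-- part MP_c357a0_lc.Cls
section

/-! Classes of predicates given by a complete set, jumps, bounded query reductions and a low
basis lemma. -/

namespace Pool.Agent.MP_c357a0_lc

open Encodable Denumerable
open Nat.Partrec (Code)
open Nat.Partrec.Code

variable {α β γ σ : Type} [Primcodable α] [Primcodable β] [Primcodable γ] [Primcodable σ]

attribute [fun_prop] Primrec

@[fun_prop] theorem pr_id : Primrec (fun x : α => x) := Primrec.id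

@[fun_prop] theorem pr_const (s : σ) : Primrec (fun _ : α => s) := Primrec.const s

@[fun_prop] theorem pr_comp {f : β → σ} {g : α → β} (hf : Primrec f) (hg : Primrec g) :
    Primrec fun a => f (g a) := hf.comp hg

@[fun_prop] theorem pr_pair {f : α → β} {g : α → γ} (hf : Primrec f) (hg : Primrec g) :
    Primrec fun a => (f a, g a) := hf.pair hg

@[fun_prop] theorem pr_fst {f : α → β × γ} (hf : Primrec f) : Primrec fun a => (f a).1 :=
  Primrec.fst.comp hf

@[fun_prop] theorem pr_snd {f : α → β × γ} (hf : Primrec f) : Primrec fun a => (f a).2 :=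
  Primrec.snd.comp hf

@[fun_prop] theorem pr_add {f g : α → ℕ} (hf : Primrec f) (hg : Primrec g) :
    Primrec fun a => f a + g a := Primrec.nat_add.comp hf hg

@[fun_prop] theorem pr_mul {f g : α → ℕ} (hf : Primrec f) (hg : Primrec g) :
    Primrec fun a => f a * g a := Primrec.nat_mul.comp hf hg

@[fun_prop] theorem pr_div {f g : α → ℕ} (hf : Primrec f) (hg : Primrec g) :
    Primrec fun a => f a / g a := Primrec.nat_div.comp hf hg

@[fun_prop] theorem pr_mod {f g : α → ℕ} (hf : Primrec f) (hg : Primrec g) :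
    Primrec fun a => f a % g a := Primrec.nat_mod.comp hf hg

@[fun_prop] theorem pr_pow {f g : α → ℕ} (hf : Primrec f) (hg : Primrec g) :
    Primrec fun a => f a ^ g a :=
  Primrec₂.comp (f := fun a b : ℕ => a ^ b) (Primrec₂.unpaired'.1 Nat.Primrec.pow) hf hg

@[fun_prop] theorem pr_encode {f : α → β} (hf : Primrec f) : Primrec fun a => encode (f a) :=
  Primrec.encode.comp hf

@[fun_prop] theorem pr_unpair {f : α → ℕ} (hf : Primrec f) : Primrec fun a => Nat.unpair (f a) :=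
  Primrec.unpair.comp hf

@[fun_prop] theorem pr_natPair {f g : α → ℕ} (hf : Primrec f) (hg : Primrec g) :
    Primrec fun a => Nat.pair (f a) (g a) := Primrec₂.natPair.comp hf hg

theorem pp_eq {f g : α → β} (hf : Primrec f) (hg : Primrec g) : PrimrecPred fun a => f a = g a :=
  Primrec.eq.comp hf hg

theorem pp_le {f g : α → ℕ} (hf : Primrec f) (hg : Primrec g) : PrimrecPred fun a => f a ≤ g a :=
  Primrec.nat_le.comp hf hg

theorem pp_lt {f g : α → ℕ} (hf : Primrec f) (hg : Primrec g) : PrimrecPred fun a => f a < g a :=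
  Primrec.nat_lt.comp hf hg

@[fun_prop] theorem pr_testBit {f g : α → ℕ} (hf : Primrec f) (hg : Primrec g) :
    Primrec fun a => (f a).testBit (g a) :=
  (pp_eq (f := fun a => f a / 2 ^ g a % 2) (g := fun _ => 1) (by fun_prop)
    (by fun_prop)).decide.of_eq fun a => by rw [Nat.testBit_eq_decide_div_mod_eq]

theorem pp_bex {p : α × ℕ → Prop} {b : α → ℕ} (hp : PrimrecPred p) (hb : Primrec b) :
    PrimrecPred fun a => ∃ y < b a, p (a, y) :=
  ((PrimrecRel.exists_mem_list (R := fun (y : ℕ) (a : α) => p (a, y))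
    (hp.comp (by fun_prop))).comp (Primrec.list_range.comp hb) Primrec.id).of_eq (by simp)

theorem pp_ball {p : α × ℕ → Prop} {b : α → ℕ} (hp : PrimrecPred p) (hb : Primrec b) :
    PrimrecPred fun a => ∀ y < b a, p (a, y) :=
  (pp_bex hp.not hb).not.of_eq (by simp only [not_exists, not_and, not_not, implies_true])

theorem bound {ι : Type} (X : Finset ι) (R : ι → ℕ → Prop) :
    ∃ s, ∀ x ∈ X, (∃ y, R x y) → ∃ y < s, R x y := by
  classical
  refine ⟨X.sup (fun x => if h : ∃ y, R x y then h.choose + 1 else 0), fun x hx h => ?_⟩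
  refine ⟨h.choose, ?_, h.choose_spec⟩
  have := Finset.le_sup (f := fun x => if h : ∃ y, R x y then h.choose + 1 else 0) hx
  simp only [dif_pos h] at this
  omega

theorem collect (b : ℕ) (R : ℕ → ℕ → Prop) :
    (∀ y < b, ∃ z, R y z) ↔ ∃ M, ∀ y < b, ∃ z < M, R y z := by
  refine ⟨fun h => ?_, fun ⟨M, h⟩ y hy => (h y hy).imp fun z hz => hz.2⟩
  obtain ⟨s, hs⟩ := bound (Finset.range b) R
  exact ⟨s, fun y hy => hs y (Finset.mem_range.2 hy) (h y hy)⟩

/-- primitive recursive many-one reducibility to `U` -/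
def Red (U : ℕ → Prop) (p : α → Prop) : Prop := ∃ f : α → ℕ, Primrec f ∧ ∀ a, p a ↔ U (f a)

theorem Red.congr {U : ℕ → Prop} {p q : α → Prop} (hp : Red U p) (h : ∀ a, p a ↔ q a) :
    Red U q := by
  rwa [← (funext fun a => propext (h a) : p = q)]

theorem Red.comp {U : ℕ → Prop} {p : β → Prop} (hp : Red U p) {f : α → β} (hf : Primrec f) :
    Red U fun a => p (f a) := by
  obtain ⟨g, hg, h⟩ := hp
  exact ⟨fun a => g (f a), hg.comp hf, fun a => h _⟩

theorem Red.refl (U : ℕ → Prop) : Red U U := ⟨fun x => x, Primrec.id, fun _ => Iff.rfl⟩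

theorem Red.trans {U V : ℕ → Prop} {p : α → Prop} (hp : Red U p) (h : Red V U) : Red V p := by
  obtain ⟨g, hg, h'⟩ := hp
  exact (h.comp hg).congr fun a => (h' a).symm

/-- closure under the positive bounded operations -/
structure Cl0 (U : ℕ → Prop) : Prop where
  prim : ∀ {α : Type} [Primcodable α] {p : α → Prop}, PrimrecPred p → Red U p
  and : ∀ {α : Type} [Primcodable α] {p q : α → Prop}, Red U p → Red U q →
    Red U fun a => p a ∧ q a
  or : ∀ {α : Type} [Primcodable α] {p q : α → Prop}, Red U p → Red U q →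
    Red U fun a => p a ∨ q a
  ball : ∀ {α : Type} [Primcodable α] {p : α × ℕ → Prop} {b : α → ℕ}, Red U p → Primrec b →
    Red U fun a => ∀ y < b a, p (a, y)
  bex : ∀ {α : Type} [Primcodable α] {p : α × ℕ → Prop} {b : α → ℕ}, Red U p → Primrec b →
    Red U fun a => ∃ y < b a, p (a, y)

/-- a class that behaves like the sets c.e. in an oracle -/
structure Cl (U : ℕ → Prop) : Prop extends Cl0 U where
  ex : ∀ {α : Type} [Primcodable α] {p : α × ℕ → Prop}, Red U p → Red U fun a => ∃ y, p (a, y)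
  stage : ∃ S : ℕ × ℕ → Prop, Red U S ∧ Red U (fun z => ¬ S z) ∧ ∀ v, U v ↔ ∃ s, S (v, s)

/-- bounded evaluation of the program coded in `z.1.1` -/
def ev (z : (ℕ × ℕ) × ℕ) : Option ℕ :=
  evaln z.2 (ofNat Code z.1.1.unpair.1) (Nat.pair z.1.1.unpair.2 z.1.2)

theorem ev_prim : Primrec ev := by
  have h : Primrec fun z : (ℕ × ℕ) × ℕ => ofNat Code z.1.1.unpair.1 :=
    (Primrec.ofNat Code).comp (by fun_prop)
  exact primrec_evaln.comp (g := fun z : (ℕ × ℕ) × ℕ =>
    ((z.2, ofNat Code z.1.1.unpair.1), Nat.pair z.1.1.unpair.2 z.1.2)) (by fun_prop)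

theorem evS_prim : PrimrecPred fun z => (ev z).isSome = true :=
  pp_eq (Primrec.option_isSome.comp ev_prim) (by fun_prop)

theorem evD_prim : Primrec fun z => (ev z).getD 0 :=
  Primrec.option_getD.comp ev_prim (by fun_prop)

/-- the program in `k` halts on `w` with a value in `U` -/
def Mat (U : ℕ → Prop) (z : ℕ × ℕ) : Prop :=
  ∃ s, (ev (z, s)).isSome = true ∧ U ((ev (z, s)).getD 0)

/-- universal projection along the witness set `Ω` -/
def Univ (Ω U : ℕ → Prop) (k : ℕ) : Prop := ∃ w, Ω w ∧ Mat U (k, w)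

theorem mat_code {F : ℕ →. ℕ} (hF : Nat.Partrec F) : ∃ e, ∀ (U : ℕ → Prop) x w,
    Mat U (Nat.pair e x, w) ↔ ∃ v ∈ F (Nat.pair x w), U v := by
  obtain ⟨c, hc⟩ := exists_code.1 hF
  refine ⟨encode c, fun U x w => ?_⟩
  simp only [Mat, ev, Nat.unpair_pair, ofNat_encode, ← hc]
  constructor
  · rintro ⟨s, h1, h2⟩
    obtain ⟨v, hv⟩ := Option.isSome_iff_exists.1 h1
    rw [hv] at h2
    exact ⟨v, evaln_sound (show v ∈ evaln s c _ from hv), h2⟩
  · rintro ⟨v, h1, h2⟩
    obtain ⟨s, hs⟩ := evaln_complete.1 h1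
    have h3 : evaln s c (Nat.pair x w) = some v := hs
    exact ⟨s, by rw [h3]; rfl, by rw [h3]; exact h2⟩

theorem univ_sharp (Ω : ℕ → Prop) {U : ℕ → Prop} {q : α × ℕ → Prop} (hq : Red U q) :
    ∃ e, ∀ a, (∃ w, Ω w ∧ q (a, w)) ↔ Univ Ω U (Nat.pair e (encode a)) := by
  obtain ⟨f, hf, h⟩ := hq
  have hF : Primrec fun n : ℕ => ((decode n : Option (α × ℕ)).map f).getD 0 :=
    Primrec.option_getD.comp (Primrec.option_map Primrec.decode (hf.comp Primrec.snd).to₂)
      (Primrec.const 0)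
  obtain ⟨e, he⟩ := mat_code (Nat.Partrec.of_primrec (Primrec.nat_iff.1 hF))
  refine ⟨e, fun a => exists_congr fun w => and_congr_right fun _ => ?_⟩
  rw [he, h]
  simp

theorem univ_red (Ω : ℕ → Prop) {U : ℕ → Prop} {q : α × ℕ → Prop} (hq : Red U q) :
    Red (Univ Ω U) fun a => ∃ w, Ω w ∧ q (a, w) := by
  obtain ⟨e, he⟩ := univ_sharp Ω hq
  exact ⟨fun a => Nat.pair e (encode a), by fun_prop, he⟩

/-- the jump -/
def Jmp (U : ℕ → Prop) : ℕ → Prop := Univ (fun _ => True) fun v => ¬ U v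

theorem Red.neg {U : ℕ → Prop} {q : α → Prop} (hq : Red U q) :
    Red (fun v => ¬ U v) fun a => ¬ q a := by
  obtain ⟨f, hf, h⟩ := hq
  exact ⟨f, hf, fun a => not_congr (h a)⟩

theorem jmp_intro {U : ℕ → Prop} {p : α → Prop} {q : α × ℕ → Prop} (hq : Red U q)
    (h : ∀ a, p a ↔ ∃ y, ¬ q (a, y)) : Red (Jmp U) p :=
  (univ_red (fun _ => True) hq.neg).congr fun a => by simp [h]

theorem jmp_elim {U : ℕ → Prop} (hU : Cl0 U) {p : α → Prop} (hp : Red (Jmp U) p) :
    ∃ q : α × ℕ → Prop, Red U q ∧ ∀ a, p a ↔ ∃ y, ¬ q (a, y) := by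
  obtain ⟨f, hf, h⟩ := hp
  have hg : Primrec fun z : α × ℕ => ((f z.1, z.2.unpair.1), z.2.unpair.2) := by fun_prop
  refine ⟨fun z => ¬ (ev ((f z.1, z.2.unpair.1), z.2.unpair.2)).isSome = true ∨
    U ((ev ((f z.1, z.2.unpair.1), z.2.unpair.2)).getD 0),
    hU.or (hU.prim (evS_prim.comp hg).not) ((Red.refl U).comp (evD_prim.comp hg)), fun a => ?_⟩
  rw [h]
  simp only [Jmp, Univ, Mat, true_and, not_or, not_not]
  exact ⟨fun ⟨w, s, h⟩ => ⟨Nat.pair w s, by simpa using h⟩, fun ⟨y, h⟩ => ⟨_, _, h⟩⟩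

theorem jmp_neg {U : ℕ → Prop} {p : α → Prop} (hp : Red U p) : Red (Jmp U) fun a => ¬ p a :=
  jmp_intro (q := fun z : α × ℕ => p z.1) (hp.comp (by fun_prop)) fun a => by simp

theorem jmp_mono {U V : ℕ → Prop} (hU : Cl0 U) (h : Red V U) : Red (Jmp V) (Jmp U) := by
  obtain ⟨q, hq, h'⟩ := jmp_elim hU (Red.refl (Jmp U))
  exact jmp_intro (hq.trans h) h'

theorem jmp_diag {U : ℕ → Prop} (hU : Cl0 U) : ¬ Red (Jmp U) fun k => ¬ Jmp U k := by
  intro h
  obtain ⟨q, hq, h'⟩ := jmp_elim hU (h.comp (f := fun x : ℕ => Nat.pair x x) (by fun_prop))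
  obtain ⟨e, he⟩ := univ_sharp (fun _ => True) hq.neg
  have h1 := he e
  have h2 := h' e
  simp only [true_and, encode_nat] at h1
  exact iff_not_self (h1.symm.trans h2.symm)

theorem cl_jmp {U : ℕ → Prop} (hU : Cl0 U) (hm : Red (Jmp U) U) : Cl (Jmp U) := by
  have prim : ∀ {α : Type} [Primcodable α] {p : α → Prop}, PrimrecPred p → Red (Jmp U) p :=
    fun hp => (jmp_neg (hU.prim hp.not)).congr fun a => not_not
  have and : ∀ {α : Type} [Primcodable α] {p q : α → Prop}, Red (Jmp U) p → Red (Jmp U) q →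
      Red (Jmp U) fun a => p a ∧ q a := by
    intro α _ p q hp hq
    obtain ⟨p', hp', h1⟩ := jmp_elim hU hp
    obtain ⟨q', hq', h2⟩ := jmp_elim hU hq
    refine jmp_intro (q := fun z : α × ℕ => p' (z.1, z.2.unpair.1) ∨ q' (z.1, z.2.unpair.2))
      (hU.or (hp'.comp (by fun_prop)) (hq'.comp (by fun_prop))) fun a => ?_
    simp only [h1, h2, not_or]
    exact ⟨fun ⟨⟨u, hu⟩, v, hv⟩ => ⟨Nat.pair u v, by simpa using ⟨hu, hv⟩⟩,
      fun ⟨y, hy⟩ => ⟨⟨_, hy.1⟩, _, hy.2⟩⟩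
  have ex : ∀ {α : Type} [Primcodable α] {p : α × ℕ → Prop}, Red (Jmp U) p →
      Red (Jmp U) fun a => ∃ y, p (a, y) := by
    intro α _ p hp
    obtain ⟨p', hp', h1⟩ := jmp_elim hU hp
    refine jmp_intro (q := fun z : α × ℕ => p' ((z.1, z.2.unpair.1), z.2.unpair.2))
      (hp'.comp (by fun_prop)) fun a => ?_
    simp only [h1]
    exact ⟨fun ⟨u, v, hv⟩ => ⟨Nat.pair u v, by simpa using hv⟩, fun ⟨y, hy⟩ => ⟨_, _, hy⟩⟩
  refine { prim := prim, and := and, ex := ex, or := ?_, ball := ?_, bex := ?_, stage := ?_ }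
  · intro α _ p q hp hq
    obtain ⟨p', hp', h1⟩ := jmp_elim hU hp
    obtain ⟨q', hq', h2⟩ := jmp_elim hU hq
    refine jmp_intro (hU.and hp' hq') fun a => ?_
    simp only [h1, h2, not_and_or, exists_or]
  · intro α _ p b hp hb
    obtain ⟨p', hp', h1⟩ := jmp_elim hU hp
    refine jmp_intro (q := fun z : α × ℕ => ∃ y < b z.1, ∀ w < z.2, p' ((z.1, y), w))
      (hU.bex (p := fun z : (α × ℕ) × ℕ => ∀ w < z.1.2, p' ((z.1.1, z.2), w))
        (hU.ball (p := fun z : ((α × ℕ) × ℕ) × ℕ => p' ((z.1.1.1, z.1.2), z.2))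
          (hp'.comp (by fun_prop)) (by fun_prop)) (by fun_prop)) fun a => ?_
    simp only [h1]
    rw [collect]
    simp
  · intro α _ p b hp hb
    exact ex (p := fun z => z.2 < b z.1 ∧ p z) (and (prim (pp_lt (by fun_prop) (by fun_prop))) hp)
  · obtain ⟨q, hq, h⟩ := jmp_elim hU (Red.refl (Jmp U))
    exact ⟨fun z => ¬ q z, jmp_neg hq, (hq.trans hm).congr fun a => not_not.symm, h⟩

/-- the complete sets of the arithmetical hierarchy -/
def KK : ℕ → ℕ → Prop
  | 0 => fun x => x = 0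
  | n + 1 => Jmp (KK n)

theorem red_zero {p : α → Prop} : Red (KK 0) p ↔ PrimrecPred p := by
  classical
  constructor
  · rintro ⟨f, hf, h⟩
    exact (pp_eq hf (Primrec.const 0)).of_eq fun a => (h a).symm
  · intro hp
    exact ⟨fun a => if p a then 0 else 1,
      Primrec.ite hp (Primrec.const 0) (Primrec.const 1), fun a => by simp [KK]⟩

theorem cl_zero : Cl0 (KK 0) where
  prim hp := red_zero.2 hp
  and hp hq := red_zero.2 ((red_zero.1 hp).and (red_zero.1 hq))
  or hp hq := red_zero.2 ((red_zero.1 hp).or (red_zero.1 hq))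
  ball hp hb := red_zero.2 (pp_ball (red_zero.1 hp) hb)
  bex hp hb := red_zero.2 (pp_bex (red_zero.1 hp) hb)

theorem kk_ind (n : ℕ) : Cl0 (KK n) ∧ Red (KK (n + 1)) (KK n) := by
  induction n with
  | zero =>
    exact ⟨cl_zero, (jmp_neg (cl_zero.prim (red_zero.1 (Red.refl _)).not)).congr fun _ => not_not⟩
  | succ n ih => exact ⟨(cl_jmp ih.1 ih.2).toCl0, jmp_mono ih.1 ih.2⟩

theorem kk_cl (n : ℕ) : Cl (KK (n + 1)) := cl_jmp (kk_ind n).1 (kk_ind n).2

theorem kk_le {m n : ℕ} (h : m ≤ n) : Red (KK n) (KK m) := by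
  induction h with
  | refl => exact Red.refl _
  | step _ ih => exact ih.trans (kk_ind _).2

theorem re_sharp {p : α → Prop} (hp : REPred p) :
    ∃ e, ∀ a, p a ↔ KK 1 (Nat.pair e (encode a)) := by
  have h1 : Partrec fun n : ℕ => ((decode n.unpair.1 : Option α) : Part α).bind fun a =>
      (Part.assert (p a) fun _ => Part.some ()).map fun _ => (1 : ℕ) :=
    (Computable.ofOption (Computable.decode.comp
      (Primrec.to_comp (f := fun n : ℕ => n.unpair.1) (by fun_prop)))).bind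
      ((Partrec.comp hp Computable.snd).map (Computable.const 1).to₂).to₂
  obtain ⟨e, he⟩ := mat_code (Partrec.nat_iff.1 h1)
  refine ⟨e, fun a => ?_⟩
  simp only [KK, Jmp, Univ, he, true_and, Nat.unpair_pair, encodek]
  simp

theorem re_red {p : α → Prop} (hp : REPred p) (n : ℕ) : Red (KK (n + 1)) p := by
  obtain ⟨e, he⟩ := re_sharp hp
  exact Red.trans ⟨fun a => Nat.pair e (encode a), by fun_prop, he⟩ (kk_le (by omega))

theorem sigma_red (n : ℕ) : ∀ {p : ℕ → Prop}, IsSigma (n + 1) p → Red (KK (n + 1)) p := by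
  induction n with
  | zero =>
    intro p h
    cases h with
    | succ _ _ q hq hp =>
    cases hq with
    | zero _ hq =>
    have h1 : Red (KK 1) fun z : ℕ × ℕ => ¬ q (Nat.pair z.1 z.2) :=
      (re_red hq.not.to_re 0).comp (by fun_prop)
    exact ((kk_cl 0).ex h1).congr fun a => (hp a).symm
  | succ n ih =>
    intro p h
    cases h with
    | succ _ _ q hq hp =>
    exact jmp_intro (q := fun z : ℕ × ℕ => q (Nat.pair z.1 z.2)) ((ih hq).comp (by fun_prop)) hp

theorem red_sigma (n : ℕ) : ∀ {p : ℕ → Prop}, Red (KK n) p → IsSigma n p := by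
  induction n with
  | zero => exact fun h => IsSigma.zero _ (red_zero.1 h).computablePred
  | succ n ih =>
    intro p h
    obtain ⟨q, hq, h'⟩ := jmp_elim (kk_ind n).1 h
    exact IsSigma.succ n p (fun z => q z.unpair) (ih (hq.comp (by fun_prop))) (by simpa only [Nat.unpair_pair] using h')

end Pool.Agent.MP_c357a0_lc

end

-- part MP_c357a0_lc.Low
section

/-! Bounded query reductions, classes relative to a set, and a low basis lemma. -/

namespace Pool.Agent.MP_c357a0_lc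

variable {α β : Type} [Primcodable α] [Primcodable β]

/-- binary code of the first `m` values of `Z` -/
def pre (Z : ℕ → Bool) : ℕ → ℕ
  | 0 => 0
  | m + 1 => if Z m = true then 2 ^ m + pre Z m else pre Z m

theorem pre_lt (Z : ℕ → Bool) (m : ℕ) : pre Z m < 2 ^ m := by
  induction m with
  | zero => simp [pre]
  | succ m ih => simp only [pre]; split_ifs <;> omega

theorem testBit_pre (Z : ℕ → Bool) (m i : ℕ) :
    (pre Z m).testBit i = (decide (i < m) && Z i) := by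
  induction m with
  | zero => simp [pre]
  | succ m ih =>
    rcases lt_trichotomy i m with h | rfl | h
    · have : (pre Z (m + 1)).testBit i = (pre Z m).testBit i := by
        simp only [pre]; split_ifs
        · exact Nat.testBit_two_pow_add_gt h _
        · rfl
      rw [this, ih]; simp [h, h.le]
    · simp only [pre]; split_ifs with h
      · rw [Nat.testBit_two_pow_add_eq, ih]; simp [h]
      · rw [ih]; simp [h]
    · rw [Nat.testBit_lt_two_pow ((pre_lt Z _).trans_le (Nat.pow_le_pow_right two_pos h))]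
      simp; omega

theorem testBit_pre' (Z : ℕ → Bool) {m i : ℕ} (h : i < m) : (pre Z m).testBit i = Z i := by
  simp [testBit_pre, h]

theorem pre_mod (Z : ℕ → Bool) {k m : ℕ} (h : k ≤ m) : pre Z m % 2 ^ k = pre Z k := by
  refine Nat.eq_of_testBit_eq fun i => ?_
  rw [Nat.testBit_mod_two_pow, testBit_pre, testBit_pre]
  by_cases hi : i < k
  · simp [hi, hi.trans_le h]
  · simp [hi]

theorem eq_pre {Z : ℕ → Bool} {m s : ℕ} (h1 : s < 2 ^ m) (h2 : ∀ i < m, s.testBit i = Z i) :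
    s = pre Z m := by
  refine Nat.eq_of_testBit_eq fun i => ?_
  by_cases hi : i < m
  · rw [testBit_pre' Z hi, h2 i hi]
  · rw [Nat.testBit_lt_two_pow (h1.trans_le (Nat.pow_le_pow_right two_pos (by omega))),
      testBit_pre]
    simp [hi]

theorem pre_testBit (s m : ℕ) : pre s.testBit m = s % 2 ^ m :=
  (eq_pre (Nat.mod_lt _ (by positivity)) fun i hi => by simp [Nat.testBit_mod_two_pow, hi]).symm

theorem pre_congr {Z Z' : ℕ → Bool} {m : ℕ} (h : ∀ i < m, Z i = Z' i) : pre Z m = pre Z' m :=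
  eq_pre (pre_lt _ _) fun i hi => by rw [testBit_pre' _ hi, h i hi]

theorem exists_rec (F : ℕ → ℕ → Prop) : ∃ d : ℕ → Bool, ∀ k, d k = true ↔ F k (pre d k) := by
  classical
  let δ : ℕ → ℕ := fun k => Nat.rec 0 (fun k s => if F k s then 2 ^ k + s else s) k
  have h : ∀ k, pre (fun k => decide (F k (δ k))) k = δ k := by
    intro k
    induction k with
    | zero => rfl
    | succ k ih => simp only [pre, ih, decide_eq_true_eq]; rfl
  exact ⟨fun k => decide (F k (δ k)), fun k => by rw [h]; simp⟩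

theorem compact (Q : ℕ → ℕ → Prop) (h : ∀ M, ∃ Z, ∀ m ≤ M, Q m (pre Z m)) :
    ∃ Z, ∀ m, Q m (pre Z m) := by
  have hc : ∀ m, Continuous fun Z : ℕ → Bool => pre Z m := by
    intro m
    induction m with
    | zero => exact continuous_const
    | succ m ih =>
      exact (continuous_of_discreteTopology
        (f := fun z : Bool × ℕ => if z.1 = true then 2 ^ m + z.2 else z.2)).comp
        ((continuous_apply m).prodMk ih)
  have hcl : ∀ M, IsClosed {Z : ℕ → Bool | ∀ m ≤ M, Q m (pre Z m)} := by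
    intro M
    simp only [Set.ofPred_forall]
    exact isClosed_iInter fun m => isClosed_iInter fun _ =>
      (isClosed_discrete {s | Q m s}).preimage (hc m)
  obtain ⟨Z, hZ⟩ := IsCompact.nonempty_iInter_of_sequence_nonempty_isCompact_isClosed
    (fun M => {Z : ℕ → Bool | ∀ m ≤ M, Q m (pre Z m)})
    (fun i Z hZ m hm => hZ m (by omega)) h (hcl 0).isCompact hcl
  exact ⟨Z, fun m => Set.mem_iInter.1 hZ m m le_rfl⟩

open Classical in
/-- characteristic function -/
noncomputable def chi (K : ℕ → Prop) (i : ℕ) : Bool := decide (K i)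

@[simp] theorem chi_iff {K : ℕ → Prop} {i : ℕ} : chi K i = true ↔ K i := by simp [chi]

/-- decided from a primitive recursively bounded initial segment of `K` -/
def TT (K : ℕ → Prop) (p : α → Prop) : Prop :=
  ∃ G : α → ℕ, Primrec G ∧ ∃ B : α × ℕ → Prop, PrimrecPred B ∧ ∀ a, p a ↔ B (a, pre (chi K) (G a))

theorem TT.congr {K : ℕ → Prop} {p q : α → Prop} (hp : TT K p) (h : ∀ a, p a ↔ q a) : TT K q := by
  rwa [← (funext fun a => propext (h a) : p = q)]

theorem TT.comp {K : ℕ → Prop} {p : β → Prop} (hp : TT K p) {f : α → β} (hf : Primrec f) :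
    TT K fun a => p (f a) := by
  obtain ⟨G, hG, B, hB, h⟩ := hp
  exact ⟨fun a => G (f a), hG.comp hf, fun z => B (f z.1, z.2), hB.comp (by fun_prop),
    fun a => h _⟩

theorem TT.refl (K : ℕ → Prop) : TT K K :=
  ⟨fun a => a + 1, by fun_prop, fun z => z.2.testBit z.1 = true,
    pp_eq (by fun_prop) (by fun_prop), fun a => by simp [testBit_pre]⟩

theorem TT.red {K U : ℕ → Prop} (h : TT K U) {p : α → Prop} (hp : Red U p) : TT K p := by
  obtain ⟨f, hf, h'⟩ := hp
  exact (h.comp hf).congr fun a => (h' a).symm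

theorem TT.prim {K : ℕ → Prop} {p : α → Prop} (hp : PrimrecPred p) : TT K p :=
  ⟨fun _ => 0, by fun_prop, fun z => p z.1, hp.comp (by fun_prop), fun _ => Iff.rfl⟩

theorem TT.not {K : ℕ → Prop} {p : α → Prop} (hp : TT K p) : TT K fun a => ¬ p a := by
  obtain ⟨G, hG, B, hB, h⟩ := hp
  exact ⟨G, hG, fun z => ¬ B z, hB.not, fun a => not_congr (h a)⟩

theorem TT.and {K : ℕ → Prop} {p q : α → Prop} (hp : TT K p) (hq : TT K q) :
    TT K fun a => p a ∧ q a := by
  obtain ⟨G, hG, B, hB, h⟩ := hp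
  obtain ⟨G', hG', B', hB', h'⟩ := hq
  refine ⟨fun a => G a + G' a, by fun_prop,
    fun z => B (z.1, z.2 % 2 ^ G z.1) ∧ B' (z.1, z.2 % 2 ^ G' z.1),
    (hB.comp (by fun_prop)).and (hB'.comp (by fun_prop)), fun a => ?_⟩
  simp only [h, h']
  rw [pre_mod _ (by omega), pre_mod _ (by omega)]

theorem TT.iff {K : ℕ → Prop} {p q : α → Prop} (hp : TT K p) (hq : TT K q) :
    TT K fun a => p a ↔ q a :=
  ((hp.and hq.not).not.and (hq.and hp.not).not).congr fun a => by tauto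

theorem TT.ball {K : ℕ → Prop} {p : α × ℕ → Prop} {b : α → ℕ} (hp : TT K p) (hb : Primrec b) :
    TT K fun a => ∀ y < b a, p (a, y) := by
  obtain ⟨G, hG, B, hB, h⟩ := hp
  let S : α → ℕ → ℕ := fun a n => Nat.rec 0 (fun y s => s + G (a, y)) n
  have hS : ∀ a n, ∀ y < n, G (a, y) ≤ S a n := by
    intro a n
    induction n with
    | zero => simp
    | succ n ih =>
      intro y hy
      have h1 : S a (n + 1) = S a n + G (a, n) := rfl
      rcases Nat.lt_succ_iff_lt_or_eq.1 hy with h2 | rfl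
      · have := ih y h2; omega
      · omega
  refine ⟨fun a => S a (b a), Primrec.nat_rec' (h := fun a z => z.2 + G (a, z.1)) hb
      (Primrec.const 0) (by unfold Primrec₂; fun_prop),
    fun z => ∀ y < b z.1, B ((z.1, y), z.2 % 2 ^ G (z.1, y)),
    pp_ball (p := fun w : (α × ℕ) × ℕ => B ((w.1.1, w.2), w.1.2 % 2 ^ G (w.1.1, w.2)))
      (hB.comp (by fun_prop)) (by fun_prop), fun a => ?_⟩
  refine forall₂_congr fun y hy => ?_
  rw [h, pre_mod _ (hS a _ y hy)]

theorem TT.bex {K : ℕ → Prop} {p : α × ℕ → Prop} {b : α → ℕ} (hp : TT K p) (hb : Primrec b) :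
    TT K fun a => ∃ y < b a, p (a, y) :=
  (TT.ball hp.not hb).not.congr fun a => by simp

theorem TT.jmp {n : ℕ} {p : α → Prop} (hp : TT (KK n) p) : Red (KK (n + 1)) p := by
  obtain ⟨G, hG, B, hB, h⟩ := hp
  have hC := kk_cl n
  have h1 : Red (KK (n + 1)) fun z : (α × ℕ) × ℕ =>
      (z.1.2.testBit z.2 = true ∧ KK n z.2) ∨ (z.1.2.testBit z.2 = false ∧ ¬ KK n z.2) :=
    hC.or (hC.and (hC.prim (pp_eq (by fun_prop) (by fun_prop))) ((kk_ind n).2.comp (by fun_prop)))
      (hC.and (hC.prim (pp_eq (by fun_prop) (by fun_prop)))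
        ((jmp_neg (Red.refl _)).comp (by fun_prop)))
  refine (hC.bex (b := fun a => 2 ^ G a) (hC.and (hC.prim hB)
    (hC.ball (b := fun z => G z.1) h1 (by fun_prop))) (by fun_prop)).congr fun a => ?_
  rw [h]
  constructor
  · rintro ⟨s, h1, h2, h3⟩
    rw [← eq_pre h1 fun i hi => ?_]
    · exact h2
    · rcases h3 i hi with ⟨h4, h5⟩ | ⟨h4, h5⟩
      · rw [show s.testBit i = true from h4, chi_iff.2 h5]
      · rw [show s.testBit i = false from h4]
        simpa [chi] using h5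
  · intro h2
    refine ⟨_, pre_lt _ _, h2, fun i hi => ?_⟩
    simp only [testBit_pre' _ hi]
    by_cases h3 : KK n i <;> simp [chi, h3]

theorem TT.recur {K : ℕ → Prop} {F : α × ℕ × ℕ → Prop} (hF : TT K F) {d : α → ℕ → Bool}
    (hd : ∀ a k, d a k = true ↔ F (a, k, pre (d a) k)) :
    TT K fun z : α × ℕ => d z.1 z.2 = true := by
  have h1 : TT K fun w : ((α × ℕ) × ℕ) × ℕ =>
      w.1.2.testBit w.2 = true ↔ F (w.1.1.1, w.2, w.1.2 % 2 ^ w.2) :=
    (TT.prim (pp_eq (by fun_prop) (by fun_prop))).iff (hF.comp (by fun_prop))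
  have h2 : TT K fun w : (α × ℕ) × ℕ => w.2.testBit w.1.2 = true :=
    TT.prim (pp_eq (by fun_prop) (by fun_prop))
  refine (TT.bex (b := fun z => 2 ^ (z.2 + 1)) (h2.and
    (TT.ball (b := fun w => w.1.2 + 1) h1 (by fun_prop))) (by fun_prop)).congr ?_
  rintro ⟨a, k⟩
  constructor
  · rintro ⟨s, -, h3, h4⟩
    have h5 : ∀ i, i < k + 1 → s.testBit i = d a i := by
      intro i
      induction i using Nat.strong_induction_on with
      | _ i ih =>
        intro hi
        have h6 : s % 2 ^ i = pre (d a) i := by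
          rw [← pre_testBit]
          exact pre_congr fun j hj => ih j hj (by omega)
        have h7 := h4 i hi
        simp only [h6, ← hd] at h7
        exact Bool.eq_iff_iff.2 h7
    exact (h5 k (by omega)).symm.trans h3
  · intro h3
    refine ⟨pre (d a) (k + 1), pre_lt _ _, (testBit_pre' _ (Nat.lt_succ_self k)).trans h3,
      fun i hi => ?_⟩
    simp only [testBit_pre' _ hi]
    rw [pre_mod _ (le_of_lt hi), hd]

/-- the class of sets c.e. in `U` and `L` -/
def Rel (U : ℕ → Prop) (L : ℕ → Bool) : ℕ → Prop :=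
  Univ (fun w => w.unpair.2 = pre L w.unpair.1) U

theorem Cl.mat {U : ℕ → Prop} (hU : Cl U) : Red U (Mat U) :=
  hU.ex (p := fun z => (ev z).isSome = true ∧ U ((ev z).getD 0))
    (hU.and (hU.prim evS_prim) ((Red.refl U).comp evD_prim))

theorem rel_def (U : ℕ → Prop) (L : ℕ → Bool) (k : ℕ) :
    Rel U L k ↔ ∃ m, Mat U (k, Nat.pair m (pre L m)) := by
  constructor
  · rintro ⟨w, h1, h2⟩
    exact ⟨w.unpair.1, by rw [← h1, Nat.pair_unpair]; exact h2⟩
  · rintro ⟨m, h⟩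
    exact ⟨_, by simp, h⟩

theorem rel_intro {U : ℕ → Prop} {L : ℕ → Bool} {p : α → Prop} {R : α × ℕ × ℕ → Prop}
    (hR : Red U R) (h : ∀ a, p a ↔ ∃ m, R (a, m, pre L m)) : Red (Rel U L) p := by
  refine (univ_red _ (hR.comp (f := fun z : α × ℕ => (z.1, z.2.unpair)) (by fun_prop))).congr
    fun a => ?_
  rw [h]
  constructor
  · rintro ⟨w, h1, h2⟩
    exact ⟨w.unpair.1, by rw [← h1]; exact h2⟩
  · rintro ⟨m, h1⟩
    exact ⟨Nat.pair m (pre L m), by simp, by simpa using h1⟩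

theorem rel_elim {U : ℕ → Prop} (hU : Cl U) {L : ℕ → Bool} {p : α → Prop}
    (hp : Red (Rel U L) p) :
    ∃ R : α × ℕ × ℕ → Prop, Red U R ∧ ∀ a, p a ↔ ∃ m, R (a, m, pre L m) := by
  obtain ⟨f, hf, h⟩ := hp
  exact ⟨fun z => Mat U (f z.1, Nat.pair z.2.1 z.2.2), hU.mat.comp (by fun_prop),
    fun a => (h a).trans (rel_def _ _ _)⟩

theorem rel_base {U : ℕ → Prop} (L : ℕ → Bool) {p : α → Prop} (hp : Red U p) :
    Red (Rel U L) p :=
  rel_intro (R := fun z => p z.1) (hp.comp (by fun_prop)) fun a => by simp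

theorem rel_at {U : ℕ → Prop} (hU : Cl U) (L : ℕ → Bool) {p : α × ℕ → Prop} (hp : Red U p)
    {b : α → ℕ} (hb : Primrec b) : Red (Rel U L) fun a => p (a, pre L (b a)) :=
  rel_intro (R := fun z => z.2.1 = b z.1 ∧ p (z.1, z.2.2))
    (hU.and (hU.prim (pp_eq (by fun_prop) (by fun_prop))) (hp.comp (by fun_prop)))
    fun a => by simp

theorem rel_bit {U : ℕ → Prop} (hU : Cl U) (L : ℕ → Bool) :
    Red (Rel U L) fun z : ℕ × Bool => L z.1 = z.2 :=
  (rel_at hU L (p := fun w : (ℕ × Bool) × ℕ => w.2.testBit w.1.1 = w.1.2)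
    (hU.prim (pp_eq (by fun_prop) (by fun_prop))) (b := fun z => z.1 + 1)
    (by fun_prop)).congr fun a => by simp [testBit_pre]

theorem cl_rel {U : ℕ → Prop} (hU : Cl U) (L : ℕ → Bool) : Cl (Rel U L) := by
  have ball : ∀ {α : Type} [Primcodable α] {p : α × ℕ → Prop} {b : α → ℕ}, Red (Rel U L) p →
      Primrec b → Red (Rel U L) fun a => ∀ y < b a, p (a, y) := by
    intro α _ p b hp hb
    obtain ⟨R, hR, h⟩ := rel_elim hU hp
    refine rel_intro (R := fun z => ∀ y < b z.1, ∃ m < z.2.1, R ((z.1, y), m, z.2.2 % 2 ^ m))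
      (hU.ball (p := fun z : (α × ℕ × ℕ) × ℕ =>
          ∃ m < z.1.2.1, R ((z.1.1, z.2), m, z.1.2.2 % 2 ^ m))
        (hU.bex (p := fun z : ((α × ℕ × ℕ) × ℕ) × ℕ =>
          R ((z.1.1.1, z.1.2), z.2, z.1.1.2.2 % 2 ^ z.2)) (hR.comp (by fun_prop)) (by fun_prop))
        (by fun_prop)) fun a => ?_
    simp only [h]
    rw [collect]
    refine exists_congr fun M => forall₂_congr fun y _ => exists_congr fun m =>
      and_congr_right fun hm => ?_
    rw [pre_mod _ hm.le]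
  have or : ∀ {α : Type} [Primcodable α] {p q : α → Prop}, Red (Rel U L) p → Red (Rel U L) q →
      Red (Rel U L) fun a => p a ∨ q a := by
    intro α _ p q hp hq
    obtain ⟨R, hR, h⟩ := rel_elim hU hp
    obtain ⟨R', hR', h'⟩ := rel_elim hU hq
    exact rel_intro (hU.or hR hR') fun a => by simp only [h, h', exists_or]
  have prim : ∀ {α : Type} [Primcodable α] {p : α → Prop}, PrimrecPred p → Red (Rel U L) p :=
    fun hp => rel_base L (hU.prim hp)
  have and : ∀ {α : Type} [Primcodable α] {p q : α → Prop}, Red (Rel U L) p → Red (Rel U L) q →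
      Red (Rel U L) fun a => p a ∧ q a := by
    intro α _ p q hp hq
    obtain ⟨R, hR, h⟩ := rel_elim hU hp
    obtain ⟨R', hR', h'⟩ := rel_elim hU hq
    refine rel_intro (R := fun z => (∃ m < z.2.1, R (z.1, m, z.2.2 % 2 ^ m)) ∧
        ∃ m < z.2.1, R' (z.1, m, z.2.2 % 2 ^ m))
      (hU.and (hU.bex (p := fun z : (α × ℕ × ℕ) × ℕ => R (z.1.1, z.2, z.1.2.2 % 2 ^ z.2))
          (hR.comp (by fun_prop)) (by fun_prop))
        (hU.bex (p := fun z : (α × ℕ × ℕ) × ℕ => R' (z.1.1, z.2, z.1.2.2 % 2 ^ z.2))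
          (hR'.comp (by fun_prop)) (by fun_prop))) fun a => ?_
    simp only [h, h']
    constructor
    · rintro ⟨⟨m, hm⟩, m', hm'⟩
      exact ⟨m + m' + 1, ⟨m, by omega, by rwa [pre_mod _ (by omega)]⟩,
        m', by omega, by rwa [pre_mod _ (by omega)]⟩
    · rintro ⟨M, ⟨m, h1, h2⟩, m', h3, h4⟩
      rw [pre_mod _ h1.le] at h2
      rw [pre_mod _ h3.le] at h4
      exact ⟨⟨m, h2⟩, m', h4⟩
  have ex : ∀ {α : Type} [Primcodable α] {p : α × ℕ → Prop}, Red (Rel U L) p →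
      Red (Rel U L) fun a => ∃ y, p (a, y) := by
    intro α _ p hp
    obtain ⟨R, hR, h⟩ := rel_elim hU hp
    refine rel_intro (R := fun z => ∃ y, R ((z.1, y), z.2))
      (hU.ex (p := fun z : (α × ℕ × ℕ) × ℕ => R ((z.1.1, z.2), z.1.2)) (hR.comp (by fun_prop)))
      fun a => ?_
    simp only [h]
    exact exists_comm
  refine { prim := prim, and := and, ex := ex, or := or, ball := ball, bex := ?_, stage := ?_ }
  · intro α _ p b hp hb
    exact ex (p := fun z => z.2 < b z.1 ∧ p z) (and (prim (pp_lt (by fun_prop) (by fun_prop))) hp)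
  · obtain ⟨S, h1, h2, h3⟩ := hU.stage
    obtain ⟨f, hf, h4⟩ := hU.mat
    have hg : Primrec fun w : (ℕ × ℕ) × ℕ =>
        (f (w.1.1, Nat.pair w.1.2.unpair.1 w.2), w.1.2.unpair.2) := by fun_prop
    refine ⟨fun z => S (f (z.1, Nat.pair z.2.unpair.1 (pre L z.2.unpair.1)), z.2.unpair.2),
      rel_at hU L (h1.comp hg) (b := fun z => z.2.unpair.1) (by fun_prop),
      rel_at hU L (h2.comp hg) (b := fun z => z.2.unpair.1) (by fun_prop), fun v => ?_⟩
    simp only [rel_def, h4, h3]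
    exact ⟨fun ⟨m, s, h⟩ => ⟨Nat.pair m s, by simpa using h⟩, fun ⟨y, h⟩ => ⟨_, _, h⟩⟩

/-- low basis lemma -/
theorem low_basis {K U : ℕ → Prop} (hU : Cl U) (hK : TT K U) {Bad : ℕ × ℕ → Prop}
    (hB : Red U Bad) (hne : ∃ Z, ∀ m, ¬ Bad (m, pre Z m)) :
    ∃ L, (∀ m, ¬ Bad (m, pre L m)) ∧ TT K (Rel U L) := by
  let W : ℕ → ℕ → ℕ → Prop := fun i m s => Mat U (i, Nat.pair m s)
  let Q : ℕ → ℕ → ℕ → ℕ → Prop := fun k δ m s =>
    Bad (m, s) ∨ ∃ i < k + 1, (i = k ∨ δ.testBit i = false) ∧ W i m s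
  let F : ℕ → ℕ → Prop := fun k δ => ∃ M, ∀ s < 2 ^ M, ∃ m < M + 1, Q k δ m (s % 2 ^ m)
  have hF : ∀ k δ, ¬ F k δ ↔ ∃ Z, ∀ m, ¬ Q k δ m (pre Z m) := by
    intro k δ
    simp only [F, not_exists, not_forall, not_and]
    constructor
    · intro h
      refine compact (fun m s => ¬ Q k δ m s) fun M => ?_
      obtain ⟨s, -, hs⟩ := h M
      exact ⟨s.testBit, fun m hm => by rw [pre_testBit]; exact hs m (by omega)⟩
    · rintro ⟨Z, hZ⟩ M
      exact ⟨pre Z M, pre_lt _ _, fun m hm => by rw [pre_mod _ (by omega)]; exact hZ m⟩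
  have hQ : Red U fun z : (ℕ × ℕ) × ℕ × ℕ => Q z.1.1 z.1.2 z.2.1 z.2.2 :=
    hU.or (hB.comp (by fun_prop)) (hU.bex (b := fun z : (ℕ × ℕ) × ℕ × ℕ => z.1.1 + 1)
      (p := fun w : ((ℕ × ℕ) × ℕ × ℕ) × ℕ =>
        (w.2 = w.1.1.1 ∨ w.1.1.2.testBit w.2 = false) ∧ W w.2 w.1.2.1 w.1.2.2)
      (hU.and (hU.prim ((pp_eq (by fun_prop) (by fun_prop)).or
        (pp_eq (by fun_prop) (by fun_prop)))) (hU.mat.comp (by fun_prop))) (by fun_prop))
  have hFU : Red U fun z : Unit × ℕ × ℕ => F z.2.1 z.2.2 :=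
    hU.ex (p := fun w : (Unit × ℕ × ℕ) × ℕ =>
        ∀ s < 2 ^ w.2, ∃ m < w.2 + 1, Q w.1.2.1 w.1.2.2 m (s % 2 ^ m))
      (hU.ball (p := fun w : ((Unit × ℕ × ℕ) × ℕ) × ℕ =>
          ∃ m < w.1.2 + 1, Q w.1.1.2.1 w.1.1.2.2 m (w.2 % 2 ^ m))
        (hU.bex (p := fun w : (((Unit × ℕ × ℕ) × ℕ) × ℕ) × ℕ =>
            Q w.1.1.1.2.1 w.1.1.1.2.2 w.2 (w.1.2 % 2 ^ w.2))
          (hQ.comp (f := fun w : (((Unit × ℕ × ℕ) × ℕ) × ℕ) × ℕ =>
            (w.1.1.1.2, w.2, w.1.2 % 2 ^ w.2)) (by fun_prop)) (by fun_prop)) (by fun_prop))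
  obtain ⟨d, hd⟩ := exists_rec F
  have hdT : TT K fun k => d k = true :=
    (TT.recur (d := fun _ : Unit => d) (hK.red hFU) fun _ k => hd k).comp
      (f := fun k => ((), k)) (by fun_prop)
  have inv : ∀ k, ∃ Z, ∀ m, ¬ Bad (m, pre Z m) ∧ ∀ i < k, d i = false → ¬ W i m (pre Z m) := by
    intro k
    induction k with
    | zero => exact hne.imp fun Z hZ m => ⟨hZ m, by simp⟩
    | succ k ih =>
      by_cases hk : d k = true
      · refine ih.imp fun Z hZ m => ⟨(hZ m).1, fun i hi h => (hZ m).2 i ?_ h⟩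
        rcases Nat.lt_succ_iff_lt_or_eq.1 hi with h1 | rfl
        · exact h1
        · simp [hk] at h
      · obtain ⟨Z, hZ⟩ := (hF _ _).1 (mt (hd k).2 hk)
        refine ⟨Z, fun m => ⟨fun h => hZ m (Or.inl h), fun i hi h h1 =>
          hZ m (Or.inr ⟨i, hi, ?_, h1⟩)⟩⟩
        rcases Nat.lt_succ_iff_lt_or_eq.1 hi with h2 | h2
        · exact Or.inr ((testBit_pre' _ h2).trans h)
        · exact Or.inl h2
  obtain ⟨L, hL⟩ := compact
    (fun m s => ¬ Bad (m, s) ∧ ∀ i < m, d i = false → ∀ m' ≤ m, ¬ W i m' (s % 2 ^ m')) fun M => by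
      obtain ⟨Z, hZ⟩ := inv M
      exact ⟨Z, fun m hm => ⟨(hZ m).1, fun i hi h m' hm' => by
        rw [pre_mod _ hm']; exact (hZ m').2 i (by omega) h⟩⟩
  have hL2 : ∀ i, d i = false → ∀ m, ¬ W i m (pre L m) := fun i h m => by
    have := (hL (m + i + 1)).2 i (by omega) h m (by omega)
    rwa [pre_mod _ (by omega)] at this
  refine ⟨L, fun m => (hL m).1, hdT.congr fun k => ?_⟩
  rw [rel_def]
  constructor
  · intro h
    by_contra hc
    refine (hF k (pre d k)).2 ⟨L, fun m => ?_⟩ ((hd k).1 h)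
    rintro (h1 | ⟨i, hi, h2 | h2, h3⟩)
    · exact (hL m).1 h1
    · exact hc ⟨m, h2 ▸ h3⟩
    · rcases Nat.lt_succ_iff_lt_or_eq.1 hi with h4 | h4
      · exact hL2 i ((testBit_pre' _ h4).symm.trans h2) m h3
      · exact hc ⟨m, h4 ▸ h3⟩
  · rintro ⟨m, hm⟩
    by_contra hc
    exact hL2 k (by simpa using hc) m hm

end Pool.Agent.MP_c357a0_lc

end

-- part MP_c357a0_lc.Step
section

/-! One level of the construction: a low filter that decides a family of relatively c.e. sets. -/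

namespace Pool.Agent.MP_c357a0_lc

open Filter

theorem sep {K U : ℕ → Prop} (hU : Cl U) (hK : TT K U) {p q : ℕ → Prop} (hp : Red U p)
    (hq : Red U q) : ∃ L, TT K (Rel U L) ∧ (∀ a, p a → ¬ q a → L a = true) ∧
      ∀ a, q a → ¬ p a → L a = false := by
  obtain ⟨S, h1, h2, h3⟩ := hU.stage
  obtain ⟨f, hf, hp⟩ := hp
  obtain ⟨g, hg, hq⟩ := hq
  let p' : ℕ → Prop := fun a => ∃ s, S (f a, s) ∧ ∀ t < s, ¬ S (g a, t)
  let q' : ℕ → Prop := fun a => ∃ s, S (g a, s) ∧ ∀ t < s + 1, ¬ S (f a, t)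
  have hp' : Red U p' :=
    hU.ex (p := fun z => S (f z.1, z.2) ∧ ∀ t < z.2, ¬ S (g z.1, t))
      (hU.and (h1.comp (by fun_prop)) (hU.ball (p := fun w : (ℕ × ℕ) × ℕ => ¬ S (g w.1.1, w.2))
        (h2.comp (by fun_prop)) (by fun_prop)))
  have hq' : Red U q' :=
    hU.ex (p := fun z => S (g z.1, z.2) ∧ ∀ t < z.2 + 1, ¬ S (f z.1, t))
      (hU.and (h1.comp (by fun_prop)) (hU.ball (p := fun w : (ℕ × ℕ) × ℕ => ¬ S (f w.1.1, w.2))
        (h2.comp (by fun_prop)) (by fun_prop)))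
  obtain ⟨L, h4, h5⟩ := low_basis hU hK
    (Bad := fun z => ∃ a < z.1, (p' a ∧ z.2.testBit a = false) ∨ (q' a ∧ z.2.testBit a = true))
    (hU.bex (p := fun w : (ℕ × ℕ) × ℕ =>
        (p' w.2 ∧ w.1.2.testBit w.2 = false) ∨ (q' w.2 ∧ w.1.2.testBit w.2 = true))
      (hU.or (hU.and (hp'.comp (by fun_prop)) (hU.prim (pp_eq (by fun_prop) (by fun_prop))))
        (hU.and (hq'.comp (by fun_prop)) (hU.prim (pp_eq (by fun_prop) (by fun_prop)))))
      (by fun_prop))
    ⟨chi p', by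
      rintro m ⟨a, ha, h⟩
      simp only [testBit_pre' _ ha] at h
      rcases h with ⟨h6, h7⟩ | ⟨⟨s, h6, h7⟩, h8⟩
      · simp [chi_iff.2 h6] at h7
      · obtain ⟨t, h9, h10⟩ := chi_iff.1 h8
        rcases lt_or_ge s t with h | h
        · exact h10 s h h6
        · exact h7 t (by omega) h9⟩
  refine ⟨L, h5, fun a ha hb => ?_, fun a ha hb => ?_⟩
  · obtain ⟨s, hs⟩ := (h3 _).1 ((hp a).1 ha)
    by_contra hc
    refine h4 (a + 1) ⟨a, Nat.lt_succ_self a, Or.inl ⟨⟨s, hs, fun t _ ht => ?_⟩, ?_⟩⟩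
    · exact hb ((hq a).2 ((h3 _).2 ⟨t, ht⟩))
    · simpa [testBit_pre] using hc
  · obtain ⟨s, hs⟩ := (h3 _).1 ((hq a).1 ha)
    by_contra hc
    refine h4 (a + 1) ⟨a, Nat.lt_succ_self a, Or.inr ⟨⟨s, hs, fun t _ ht => ?_⟩, ?_⟩⟩
    · exact hb ((hp a).2 ((h3 _).2 ⟨t, ht⟩))
    · simpa [testBit_pre] using hc

/-- a decreasing sequence of infinite sets -/
structure Base (Y : ℕ × ℕ → Prop) : Prop where
  anti : ∀ i j y, i ≤ j → Y (j, y) → Y (i, y)
  inf : ∀ i, ∃ y, i < y ∧ Y (i, y)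

/-- `P` holds on a set of the filter generated by `Y` -/
def Ev (Y : ℕ × ℕ → Prop) (P : ℕ → Prop) : Prop := ∃ i, ∀ y, i < y → Y (i, y) → P y

theorem step {j : ℕ} {U : ℕ → Prop} (hU : Cl U) (hT : TT (KK (j + 1)) U)
    (hK : Red U (KK (j + 1))) {Y B : ℕ × ℕ → Prop} (hY : Red U Y) (hB : Red U B) (hb : Base Y) :
    ∃ U', Cl U' ∧ TT (KK (j + 2)) U' ∧ Red U' (KK (j + 2)) ∧ ∃ Y', Red U' Y' ∧ Base Y' ∧
      (∀ z, Y' z → Y z) ∧ ∃ N, Red U' N ∧ ∀ k, Ev Y' fun y => B (k, y) ↔ ¬ N k := by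
  obtain ⟨q, hq, hq2⟩ := jmp_elim (kk_ind (j + 1)).1 (Red.refl (KK (j + 2)))
  obtain ⟨L, hL, hL1, hL2⟩ := sep hU hT (p := fun a => B (a.unpair.1.unpair.1, a.unpair.2))
    (q := fun a => ∀ w < a.unpair.2 + 1, q (a.unpair.1.unpair.2, w)) (hB.comp (by fun_prop))
    (hU.ball (p := fun z : ℕ × ℕ => q (z.1.unpair.1.unpair.2, z.2))
      ((hq.trans hK).comp (by fun_prop)) (by fun_prop))
  have hU1 := cl_rel hU L
  have hC := kk_cl (j + 1)
  let Ag : ℕ × ℕ × ℕ → Prop := fun z => ∀ r < z.1, L (Nat.pair r z.2.2) = z.2.1.testBit r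
  have hAg : Red (Rel U L) Ag :=
    hU1.ball (p := fun w : (ℕ × ℕ × ℕ) × ℕ => L (Nat.pair w.2 w.1.2.2) = w.1.2.1.testBit w.2)
      ((rel_bit hU L).comp (f := fun w : (ℕ × ℕ × ℕ) × ℕ =>
        (Nat.pair w.2 w.1.2.2, w.1.2.1.testBit w.2)) (by fun_prop)) (by fun_prop)
  have h1 : Red (Rel U L) fun z : (ℕ × ℕ) × ℕ =>
      ∃ y, z.2 < y ∧ Y (z.2, y) ∧ Ag (z.1.1, z.1.2, y) :=
    hU1.ex (p := fun w : ((ℕ × ℕ) × ℕ) × ℕ =>
        w.1.2 < w.2 ∧ Y (w.1.2, w.2) ∧ Ag (w.1.1.1, w.1.1.2, w.2))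
      (hU1.and (hU1.prim (pp_lt (by fun_prop) (by fun_prop)))
        (hU1.and ((rel_base L hY).comp (by fun_prop)) (hAg.comp (by fun_prop))))
  obtain ⟨D, hD, hDT⟩ := low_basis hC (TT.refl _) (hC.ex (hL.red h1).not.jmp) (by
    choose y hy1 hy2 using hb.inf
    refine ⟨chi fun r => ∀ᶠ i in (hyperfilter ℕ : Filter ℕ), L (Nat.pair r (y i)) = true, ?_⟩
    rintro m ⟨i, hi⟩
    have h2 : ∀ᶠ i' in (hyperfilter ℕ : Filter ℕ), ∀ r ∈ Finset.range m, L (Nat.pair r (y i')) =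
        chi (fun r => ∀ᶠ i in (hyperfilter ℕ : Filter ℕ), L (Nat.pair r (y i)) = true) r := by
      refine (eventually_all_finset _).2 fun r _ => ?_
      by_cases h : ∀ᶠ i in (hyperfilter ℕ : Filter ℕ), L (Nat.pair r (y i)) = true
      · rw [chi_iff.2 h]; exact h
      · rw [(Bool.not_eq_true _).mp (mt chi_iff.1 h)]
        exact (Ultrafilter.eventually_not.2 h).mono fun _ h => by simpa using h
    obtain ⟨i', h3, h4⟩ :=
      (h2.and (Nat.hyperfilter_le_atTop (eventually_ge_atTop i))).exists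
    exact hi ⟨y i', h4.trans_lt (hy1 i'), hb.anti _ _ _ h4 (hy2 i'), fun r hr =>
      (h3 r (Finset.mem_range.2 hr)).trans (testBit_pre' _ hr).symm⟩)
  have hU2 := cl_rel hC D
  let Y' : ℕ × ℕ → Prop := fun z => Y z ∧ Ag (z.1, pre D z.1, z.2)
  have hY' : ∀ i y, Y' (i, y) → ∀ r < i, L (Nat.pair r y) = D r := fun i y h r hr =>
    (h.2 r hr).trans (testBit_pre' _ hr)
  have h2 : Red (Rel U L) fun w : (ℕ × ℕ) × ℕ => Y w.1 ∧ Ag (w.1.1, w.2, w.1.2) :=
    hU1.and ((rel_base L hY).comp (by fun_prop)) (hAg.comp (by fun_prop))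
  have h3 : Red (Rel U L) fun z : ℕ × ℕ × ℕ =>
      ∃ y, z.2.1 < y ∧ (Y (z.2.1, y) ∧ Ag (z.2.1, z.2.2, y)) ∧ B (z.1, y) :=
    hU1.ex (p := fun w : (ℕ × ℕ × ℕ) × ℕ =>
        w.1.2.1 < w.2 ∧ (Y (w.1.2.1, w.2) ∧ Ag (w.1.2.1, w.1.2.2, w.2)) ∧ B (w.1.1, w.2))
      (hU1.and (hU1.prim (pp_lt (by fun_prop) (by fun_prop)))
        (hU1.and (h2.comp (f := fun w : (ℕ × ℕ × ℕ) × ℕ => ((w.1.2.1, w.2), w.1.2.2))
          (by fun_prop)) ((rel_base L hB).comp (by fun_prop))))
  refine ⟨Rel (KK (j + 2)) D, hU2, hDT, rel_base D (Red.refl _), Y',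
    rel_at hC D (hL.red h2).jmp (b := fun z => z.1) (by fun_prop), ⟨?_, ?_⟩, fun z h => h.1,
    fun k => ∃ i, ¬ ∃ y, i < y ∧ Y' (i, y) ∧ B (k, y),
    rel_intro (hL.red h3).not.jmp fun k => Iff.rfl, fun k => ?_⟩
  · intro i i' y h h'
    exact ⟨hb.anti _ _ _ h h'.1, fun r hr =>
      (hY' _ _ h' r (lt_of_lt_of_le hr h)).trans (testBit_pre' _ hr).symm⟩
  · intro i
    by_contra hc
    exact hD i ⟨i, hc⟩
  · by_cases hN : ∃ i, ¬ ∃ y, i < y ∧ Y' (i, y) ∧ B (k, y)
    · obtain ⟨i, hi⟩ := hN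
      exact ⟨i, fun y h4 h5 => ⟨fun h6 => (hi ⟨y, h4, h5, h6⟩).elim, fun h6 => (h6 ⟨i, hi⟩).elim⟩⟩
    by_contra hc
    have h4 : ∀ i, ∃ y, i < y ∧ Y' (i, y) ∧ ¬ B (k, y) := by
      intro i
      by_contra h
      exact hc ⟨i, fun y h5 h6 => ⟨fun _ => hN, fun _ => by
        by_contra h7
        exact h ⟨y, h5, h6, h7⟩⟩⟩
    have h5 : Red (Rel (KK (j + 2)) D) fun z => ¬ KK (j + 2) z := by
      refine ((rel_bit hC D).comp (f := fun z : ℕ => (Nat.pair k z, false))
        (by fun_prop)).congr fun z => ?_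
      rw [hq2]
      constructor
      · rintro h ⟨w, hw⟩
        obtain ⟨y, h6, h7, h8⟩ : ∃ y, Nat.pair k z + w + 1 < y ∧
            Y' (Nat.pair k z + w + 1, y) ∧ B (k, y) := by
          by_contra h9
          exact hN ⟨_, h9⟩
        have h9 := hL1 (Nat.pair (Nat.pair k z) y) (by simpa using h8)
          (by simpa only [Nat.unpair_pair, Order.lt_add_one_iff, not_forall, Classical.not_imp] using ⟨w, by omega, hw⟩)
        rw [hY' _ _ h7 _ (by omega)] at h9
        exact absurd (h9.symm.trans h) (by simp)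
      · intro h
        obtain ⟨y, -, h7, h8⟩ := h4 (Nat.pair k z + 1)
        have h9 := hL2 (Nat.pair (Nat.pair k z) y)
          (fun w _ => by simpa using not_exists.1 h w) (by simpa using h8)
        exact (hY' _ _ h7 _ (by omega)).symm.trans h9
    obtain ⟨q', h6, h7⟩ := jmp_elim hC.toCl0 (Red.refl (KK (j + 3)))
    have h8 : Red (Rel (KK (j + 2)) D) (KK (j + 3)) :=
      (hU2.ex (h6.neg.trans h5)).congr fun a => (h7 a).symm
    exact jmp_diag hC.toCl0 (hDT.red h8).not.jmp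

theorem tower {c0 : ℕ × ℕ → Prop} (h0 : Red (KK 1) c0) (J : ℕ) :
    ∃ U, Cl U ∧ TT (KK (J + 1)) U ∧ Red U (KK (J + 1)) ∧ ∃ Y, Red U Y ∧ Base Y ∧
      ∃ c : ℕ → ℕ × ℕ → Prop, c 0 = c0 ∧ Red U (c J) ∧ ∀ j < J,
        Red (KK (J + 1)) (c j) ∧ Red (KK (J + 1)) (fun z => ¬ c j z) ∧
        ∀ e u, Ev Y fun y => c j (e, 2 ^ y + u) ↔ ¬ c (j + 1) (e, u) := by
  induction J with
  | zero =>
    exact ⟨KK 1, kk_cl 0, TT.refl _, Red.refl _, fun z => z.1 = z.1,
      (kk_cl 0).prim (pp_eq (by fun_prop) (by fun_prop)),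
      ⟨fun _ _ _ _ _ => rfl, fun i => ⟨i + 1, by omega, rfl⟩⟩, fun _ => c0, rfl, h0, by simp⟩
  | succ J ih =>
    obtain ⟨U, hU, hT, hK, Y, hY, hb, c, hc0, hcJ, hc⟩ := ih
    obtain ⟨U', hU', hT', hK', Y', hY', hb', hYY, N, hN, hN2⟩ := step hU hT hK hY
      (B := fun z => c J (z.1.unpair.1, 2 ^ z.2 + z.1.unpair.2)) (hcJ.comp (by fun_prop)) hb
    refine ⟨U', hU', hT', hK', Y', hY', hb',
      fun j => if j ≤ J then c j else fun z => N (Nat.pair z.1 z.2), by simp [hc0], ?_,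
      fun j hj => ?_⟩
    · simp only [if_neg (Nat.not_succ_le_self J)]
      exact hN.comp (by fun_prop)
    · rcases Nat.lt_succ_iff_lt_or_eq.1 hj with h | rfl
      · simp only [if_pos h.le, if_pos (Nat.succ_le_of_lt h)]
        obtain ⟨h1, h2, h3⟩ := hc j h
        exact ⟨h1.trans (kk_ind _).2, h2.trans (kk_ind _).2, fun e u =>
          (h3 e u).imp fun i hi y h4 h5 => hi y h4 (hYY _ h5)⟩
      · simp only [if_pos le_rfl, if_neg (Nat.not_succ_le_self j)]
        exact ⟨(hT.red hcJ).jmp, (hT.red hcJ).not.jmp, fun e u => by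
          simpa using hN2 (Nat.pair e u)⟩

end Pool.Agent.MP_c357a0_lc

end

-- part MP_c357a0_lc.Neg
section

/-! No infinite difference of two Sigma n sets lies inside an n-r-cohesive set. -/

namespace Pool.Agent.MP_c357a0_lc

@[fun_prop] theorem pr_headI {α : Type} [Primcodable α] {f : α → List ℕ} (hf : Primrec f) :
    Primrec fun a => (f a).headI := Primrec.list_headI.comp hf

@[fun_prop] theorem pr_tail {α : Type} [Primcodable α] {f : α → List ℕ} (hf : Primrec f) :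
    Primrec fun a => (f a).tail := Primrec.list_tail.comp hf

theorem cp_comp {α β : Type} [Primcodable α] [Primcodable β] {p : β → Prop}
    (hp : ComputablePred p) {f : α → β} (hf : Computable f) : ComputablePred fun a => p (f a) := by
  classical
  exact Computable.computablePred (hp.decide.comp hf)

/-- iterated-limit approximation along any infinite set -/
def Approx {α : Type} (k : ℕ) (p : α → Prop) (g : α × List ℕ → Prop) : Prop :=
  ∀ H : Set ℕ, H.Infinite → ∀ (X : Finset α) (m : ℕ), ∃ l : List ℕ, l.length = k ∧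
    l.Pairwise (· < ·) ∧ (∀ z ∈ l, z ∈ H ∧ m < z) ∧ ∀ x ∈ X, (g (x, l) ↔ p x)

theorem approx (k : ℕ) : ∀ {α : Type} [Primcodable α] {p : α → Prop}, Red (KK k) p →
    ∃ g, PrimrecPred g ∧ Approx k p g := by
  induction k with
  | zero =>
    intro α _ p h
    exact ⟨fun z => p z.1, (red_zero.1 h).comp (by fun_prop),
      fun _ _ _ _ => ⟨[], rfl, List.Pairwise.nil, by simp, fun _ _ => Iff.rfl⟩⟩
  | succ k ih =>
    intro α _ p h
    obtain ⟨q, hq, hp⟩ := jmp_elim (kk_ind k).1 h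
    obtain ⟨g, hg, hg2⟩ := ih hq
    refine ⟨fun z => ∃ y < z.2.headI, ¬ g ((z.1, y), z.2.tail),
      pp_bex (p := fun w : (α × List ℕ) × ℕ => ¬ g ((w.1.1, w.2), w.1.2.tail))
        (hg.comp (by fun_prop)).not (by fun_prop), fun H hH X m => ?_⟩
    obtain ⟨s, hs⟩ := bound X fun x y => ¬ q (x, y)
    obtain ⟨z, hz, hz2⟩ := hH.exists_gt (max m s)
    obtain ⟨l, h1, h2, h3, h4⟩ := hg2 H hH (X ×ˢ Finset.range z) z
    refine ⟨z :: l, by simp [h1], List.pairwise_cons.2 ⟨fun a ha => (h3 a ha).2, h2⟩, ?_,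
      fun x hx => ?_⟩
    · intro a ha
      rcases List.mem_cons.1 ha with rfl | ha
      · exact ⟨hz, by omega⟩
      · exact ⟨(h3 a ha).1, by have := (h3 a ha).2; omega⟩
    · have h5 : ∀ y < z, (g ((x, y), l) ↔ q (x, y)) := fun y hy => h4 _ (by simp [hx, hy])
      rw [hp]
      constructor
      · rintro ⟨y, hy, hy2⟩
        exact ⟨y, fun h => hy2 ((h5 y hy).2 h)⟩
      · intro h
        obtain ⟨y, hy, hy2⟩ := hs x hx h
        exact ⟨y, show y < z by omega, fun h => hy2 ((h5 y (by omega)).1 h)⟩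

/-- `u < v` are adjacent among the elements not yet removed at some stage `s < z`. -/
def Edge (D : ℕ → ℕ → Prop) (z u v : ℕ) : Prop :=
  u < v ∧ ∃ s < z, ¬ D s u ∧ ¬ D s v ∧ ∀ x < v, u < x → D s x

theorem colour (D : ℕ → ℕ → Prop) (hD : ∀ s t x, s ≤ t → D s x → D t x) (z : ℕ) (S : Finset ℕ) :
    ∃ χ : ℕ → Bool × Bool, ∀ u ∈ S, ∀ v ∈ S, Edge D z u v → χ u ≠ χ v := by
  classical
  induction hn : S.card generalizing S with
  | zero => rw [Finset.card_eq_zero.1 hn]; exact ⟨fun _ => (true, true), by simp⟩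
  | succ n ih =>
    obtain ⟨w, hw, hmax⟩ := S.exists_max_image
      (fun x => ((Finset.range z).filter fun s => D s x).card) (Finset.card_pos.1 (by omega))
    have key : ∀ s < z, ∀ x ∈ S, D s x → D s w := by
      intro s hs x hx h
      by_contra hc
      refine absurd (hmax x hx) (not_le.2 (Finset.card_lt_card ⟨fun t ht => ?_, fun h2 => ?_⟩))
      · rw [Finset.mem_filter] at ht ⊢
        refine ⟨ht.1, hD s t x ?_ h⟩
        by_contra h3
        exact hc (hD t s w (by omega) ht.2)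
      · exact hc (Finset.mem_filter.1 (h2 (Finset.mem_filter.2 ⟨Finset.mem_range.2 hs, h⟩))).2
    have ha : ∃ a, ∀ v ∈ S, Edge D z w v → v = a := by
      by_cases h : ∃ a ∈ S, Edge D z w a
      · obtain ⟨a, ha, ha2⟩ := h
        refine ⟨a, fun v hv hv2 => ?_⟩
        rcases lt_trichotomy v a with h | h | h
        · obtain ⟨_, s, hs, h1, _, h3⟩ := ha2
          exact absurd (key s hs v hv (h3 v h hv2.1)) h1
        · exact h
        · obtain ⟨_, s, hs, h1, _, h3⟩ := hv2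
          exact absurd (key s hs a ha (h3 a h ha2.1)) h1
      · exact ⟨0, fun v hv hv2 => absurd ⟨v, hv, hv2⟩ h⟩
    have hb : ∃ b, ∀ u ∈ S, Edge D z u w → u = b := by
      by_cases h : ∃ a ∈ S, Edge D z a w
      · obtain ⟨a, ha, ha2⟩ := h
        refine ⟨a, fun v hv hv2 => ?_⟩
        rcases lt_trichotomy v a with h | h | h
        · obtain ⟨_, s, hs, _, h1, h3⟩ := hv2
          exact absurd (key s hs a ha (h3 a ha2.1 h)) h1
        · exact h
        · obtain ⟨_, s, hs, _, h1, h3⟩ := ha2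
          exact absurd (key s hs v hv (h3 v hv2.1 h)) h1
      · exact ⟨0, fun v hv hv2 => absurd ⟨v, hv, hv2⟩ h⟩
    obtain ⟨a, ha⟩ := ha
    obtain ⟨b, hb⟩ := hb
    obtain ⟨χ, hχ⟩ := ih (S.erase w) (by rw [Finset.card_erase_of_mem hw]; omega)
    obtain ⟨c, hc1, hc2⟩ : ∃ c : Bool × Bool, c ≠ χ a ∧ c ≠ χ b := by
      generalize χ a = i; generalize χ b = j; revert i j; decide
    refine ⟨Function.update χ w c, fun u hu v hv h => ?_⟩
    have huv := h.1.ne
    by_cases h1 : u = w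
    · subst h1
      rw [Function.update_self, Function.update_of_ne huv.symm, ha v hv h]
      exact hc1
    · by_cases h2 : v = w
      · subst h2
        rw [Function.update_self, Function.update_of_ne huv, hb u hu h]
        exact hc2.symm
      · rw [Function.update_of_ne h1, Function.update_of_ne h2]
        exact hχ u (Finset.mem_erase.2 ⟨h1, hu⟩) v (Finset.mem_erase.2 ⟨h2, hv⟩) h

/-- the colour of `u` in the colouring with code `c` -/
def col (c u : ℕ) : Bool × Bool := (c.unpair.1.testBit u, c.unpair.2.testBit u)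

@[fun_prop] theorem pr_col {α : Type} [Primcodable α] {f g : α → ℕ} (hf : Primrec f)
    (hg : Primrec g) : Primrec fun a => col (f a) (g a) := by
  unfold col; fun_prop

/-- `y` is the first witness for `x` -/
def Fst (q : ℕ × ℕ × ℕ → Prop) (x y : ℕ) : Prop := ¬ q (0, x, y) ∧ ∀ w < y, q (0, x, w)

theorem Fst.unique {q : ℕ × ℕ × ℕ → Prop} {x y y' : ℕ} (h : Fst q x y) (h' : Fst q x y') :
    y = y' := by
  rcases lt_trichotomy y y' with h1 | h1 | h1
  · exact absurd (h'.2 y h1) h.1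
  · exact h1
  · exact absurd (h.2 y' h1) h'.1

/-- the code `v` is removed before stage `s` -/
def Rem (q : ℕ × ℕ × ℕ → Prop) (s v : ℕ) : Prop :=
  ¬ Fst q v.unpair.1 v.unpair.2 ∨ ∃ y < s, ¬ q (1, v.unpair.1, y)

/-- `c` codes a proper colouring of the graph seen from `l` -/
def Proper (g : (ℕ × ℕ × ℕ) × List ℕ → Prop) (l : List ℕ) (c : ℕ) : Prop :=
  ∀ u < l.headI, ∀ v < l.headI, Edge (Rem fun w => g (w, l)) l.headI u v → col c u ≠ col c v

theorem proper_ex (g : (ℕ × ℕ × ℕ) × List ℕ → Prop) (l : List ℕ) : ∃ c, Proper g l c := by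
  obtain ⟨χ, hχ⟩ := colour (Rem fun w => g (w, l))
    (fun s t x h => Or.imp_right fun ⟨y, hy, hy2⟩ => ⟨y, by omega, hy2⟩) l.headI
    (Finset.range l.headI)
  refine ⟨Nat.pair (pre (fun u => (χ u).1) l.headI) (pre (fun u => (χ u).2) l.headI),
    fun u hu v hv h => ?_⟩
  simpa only [col, Nat.unpair_pair, testBit_pre' _ hu, testBit_pre' _ hv] using
    hχ u (Finset.mem_range.2 hu) v (Finset.mem_range.2 hv) h

section prim

variable {g : (ℕ × ℕ × ℕ) × List ℕ → Prop} {α : Type} [Primcodable α] {l : α → List ℕ}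

theorem fst_prim (hg : PrimrecPred g) {x y : α → ℕ} (hl : Primrec l) (hx : Primrec x)
    (hy : Primrec y) : PrimrecPred fun a => Fst (fun w => g (w, l a)) (x a) (y a) :=
  (hg.comp (f := fun a => ((0, x a, y a), l a)) (by fun_prop)).not.and
    (pp_ball (p := fun w : α × ℕ => g ((0, x w.1, w.2), l w.1)) (hg.comp (by fun_prop)) hy)

theorem rem_prim (hg : PrimrecPred g) {s v : α → ℕ} (hl : Primrec l) (hs : Primrec s)
    (hv : Primrec v) : PrimrecPred fun a => Rem (fun w => g (w, l a)) (s a) (v a) :=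
  (fst_prim hg hl (by fun_prop) (by fun_prop)).not.or
    (pp_bex (p := fun w : α × ℕ => ¬ g ((1, (v w.1).unpair.1, w.2), l w.1))
      (hg.comp (by fun_prop)).not hs)

theorem pp_imp {p q : α → Prop} (hp : PrimrecPred p) (hq : PrimrecPred q) :
    PrimrecPred fun a => p a → q a :=
  (hp.not.or hq).of_eq fun _ => imp_iff_not_or.symm

theorem edge_prim (hg : PrimrecPred g) {z u v : α → ℕ} (hl : Primrec l) (hz : Primrec z)
    (hu : Primrec u) (hv : Primrec v) :
    PrimrecPred fun a => Edge (Rem fun w => g (w, l a)) (z a) (u a) (v a) :=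
  (pp_lt hu hv).and (pp_bex (p := fun b : α × ℕ => ¬ Rem (fun w => g (w, l b.1)) b.2 (u b.1) ∧
      ¬ Rem (fun w => g (w, l b.1)) b.2 (v b.1) ∧
      ∀ x < v b.1, u b.1 < x → Rem (fun w => g (w, l b.1)) b.2 x)
    ((rem_prim hg (by fun_prop) (by fun_prop) (by fun_prop)).not.and
      ((rem_prim hg (by fun_prop) (by fun_prop) (by fun_prop)).not.and
        (pp_ball (p := fun b : (α × ℕ) × ℕ =>
            u b.1.1 < b.2 → Rem (fun w => g (w, l b.1.1)) b.1.2 b.2)
          (pp_imp (pp_lt (by fun_prop) (by fun_prop))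
            (rem_prim hg (by fun_prop) (by fun_prop) (by fun_prop))) (by fun_prop)))) hz)

theorem proper_prim (hg : PrimrecPred g) : PrimrecPred fun z : List ℕ × ℕ => Proper g z.1 z.2 :=
  pp_ball (p := fun b : (List ℕ × ℕ) × ℕ => ∀ v < b.1.1.headI,
      Edge (Rem fun w => g (w, b.1.1)) b.1.1.headI b.2 v → col b.1.2 b.2 ≠ col b.1.2 v)
    (pp_ball (p := fun b : ((List ℕ × ℕ) × ℕ) × ℕ =>
        Edge (Rem fun w => g (w, b.1.1.1)) b.1.1.1.headI b.1.2 b.2 →
          col b.1.1.2 b.1.2 ≠ col b.1.1.2 b.2)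
      (pp_imp (edge_prim hg (by fun_prop) (by fun_prop) (by fun_prop) (by fun_prop))
        (pp_eq (by fun_prop) (by fun_prop)).not) (by fun_prop)) (by fun_prop)

end prim

theorem neg_core {k : ℕ} {q : ℕ × ℕ × ℕ → Prop} (hq : Red (KK (k + 1)) q) {A : Set ℕ}
    (hA : RCohesive (k + 2) A) (hs : ∀ x, (∃ y, ¬ q (0, x, y)) → (∀ y, q (1, x, y)) → x ∈ A)
    (hi : {x | (∃ y, ¬ q (0, x, y)) ∧ ∀ y, q (1, x, y)}.Infinite) : False := by
  classical
  obtain ⟨g, hg, hg2⟩ := approx _ hq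
  let c : List ℕ → ℕ := fun l => Nat.find (proper_ex g l)
  have h1 : Computable c := Computable.find (proper_prim hg).computablePred _
  let C : Bool × Bool → List ℕ → Prop := fun i t => ∃ y < t.tail.headI,
    Fst (fun w => g (w, t.tail)) t.headI y ∧ col (c t.tail) (Nat.pair t.headI y) = i
  have h2 : ∀ i, ComputablePred (C i) := fun i =>
    cp_comp (pp_bex (p := fun w : (List ℕ × ℕ) × ℕ =>
        Fst (fun v => g (v, w.1.1.tail)) w.1.1.headI w.2 ∧
          col w.1.2 (Nat.pair w.1.1.headI w.2) = i) (b := fun z => z.1.tail.headI)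
      ((fst_prim hg (by fun_prop) (by fun_prop) (by fun_prop)).and
        (pp_eq (by fun_prop) (by fun_prop))) (by fun_prop)).computablePred
      (Computable.id.pair (h1.comp Primrec.list_tail.to_comp))
  choose F hF hF2 using fun i => hA.2 _ (h2 i)
  obtain ⟨M, hM⟩ := (Set.finite_iUnion hF).bddAbove
  let P : ℕ → Prop := fun v => Fst q v.unpair.1 v.unpair.2 ∧ ∀ y, q (1, v.unpair.1, y)
  have hP : ∀ m, ∃ v, P v ∧ m < v := by
    intro m
    obtain ⟨x, ⟨hx1, hx2⟩, hx3⟩ := hi.exists_gt m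
    refine ⟨Nat.pair x (Nat.find hx1), ?_, hx3.trans_le (Nat.left_le_pair _ _)⟩
    simp only [P, Nat.unpair_pair]
    exact ⟨⟨Nat.find_spec hx1, fun w hw => not_not.1 (Nat.find_min hx1 hw)⟩, hx2⟩
  have hPu : ∀ u v, P u → P v → u.unpair.1 = v.unpair.1 → u = v := fun u v hu hv h => by
    have h3 : u.unpair.2 = v.unpair.2 := hu.1.unique (h ▸ hv.1)
    rw [← Nat.pair_unpair u, ← Nat.pair_unpair v, h, h3]
  obtain ⟨s0, hs0⟩ := bound (Finset.range (M + 1)) fun x v => P v ∧ v.unpair.1 = x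
  have hM2 : ∀ v, P v → s0 < v → M < v.unpair.1 := by
    intro v hv h
    by_contra hc
    obtain ⟨u, h3, h4, h5⟩ := hs0 _ (Finset.mem_range.2 (by omega)) ⟨v, hv, rfl⟩
    have := hPu u v h4 hv h5
    omega
  obtain ⟨a, ha, ha2⟩ := hP s0
  set b := Nat.find (hP a) with hbdef
  obtain ⟨hb, hab⟩ : P b ∧ a < b := Nat.find_spec (hP a)
  obtain ⟨s, hs1⟩ := bound (Finset.range b) fun v y => ¬ q (1, v.unpair.1, y)
  obtain ⟨l, hl1, hl2, hl3, hl4⟩ := hg2 A hA.1
    (Finset.range 2 ×ˢ Finset.range (b + 1) ×ˢ Finset.range (b + s + 1)) (b + s + M)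
  have hz : b + s + M < l.headI := by
    obtain ⟨z, l', rfl⟩ := List.exists_cons_of_length_eq_add_one hl1
    exact (hl3 z List.mem_cons_self).2
  have h5 : ∀ j < 2, ∀ x ≤ b, ∀ y ≤ b + s, (g ((j, x, y), l) ↔ q (j, x, y)) :=
    fun j hj x hx y hy => hl4 _ (by simp only [Finset.mem_product, Finset.mem_range, Order.lt_two_iff, Order.lt_add_one_iff]; omega)
  have h6 : ∀ v ≤ b, (Fst (fun w => g (w, l)) v.unpair.1 v.unpair.2 ↔
      Fst q v.unpair.1 v.unpair.2) := by
    intro v hv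
    have h7 := Nat.unpair_left_le v
    have h8 := Nat.unpair_right_le v
    exact and_congr (not_congr (h5 0 (by omega) _ (by omega) _ (by omega)))
      (forall₂_congr fun w hw => h5 0 (by omega) _ (by omega) _ (by omega))
  have h7 : ∀ v ≤ b, P v → ¬ Rem (fun w => g (w, l)) s v := by
    rintro v hv h (h8 | ⟨y, hy, h8⟩)
    · exact h8 ((h6 v hv).2 h.1)
    · exact h8 ((h5 1 (by omega) _ ((Nat.unpair_left_le v).trans hv) _ (by omega)).2 (h.2 y))
  have hE : Edge (Rem fun w => g (w, l)) l.headI a b := by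
    refine ⟨hab, s, by omega, h7 a hab.le ha, h7 b le_rfl hb, fun v hv hv2 => ?_⟩
    by_cases h8 : Fst q v.unpair.1 v.unpair.2
    · obtain ⟨y, hy, hy2⟩ := hs1 v (Finset.mem_range.2 hv)
        (not_forall.1 fun h => Nat.find_min (hP a) hv ⟨⟨h8, h⟩, hv2⟩)
      exact Or.inr ⟨y, hy, fun h => hy2 ((h5 1 (by omega) _
        ((Nat.unpair_left_le v).trans hv.le) _ (by omega)).1 h)⟩
    · exact Or.inl (mt (h6 v hv.le).1 h8)
  have hne : col (c l) a ≠ col (c l) b :=
    Nat.find_spec (proper_ex g l) a (by omega) b (by omega) hE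
  have hset : ∀ v ≤ b, P v → s0 < v → ∃ t : Finset ℕ, t.card = k + 2 ∧
      (t : Set ℕ) ⊆ A \ F (col (c l) a) ∧
      (C (col (c l) a) (t.sort (· ≤ ·)) ↔ col (c l) v = col (c l) a) := by
    intro v hv h hv2
    have h8 := Nat.unpair_left_le v
    have h9 := Nat.unpair_right_le v
    have hp : (v.unpair.1 :: l).Pairwise (· < ·) :=
      List.pairwise_cons.2 ⟨fun z hz => by have := (hl3 z hz).2; omega, hl2⟩
    have hnd : (v.unpair.1 :: l).Nodup := hp.imp fun h => h.ne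
    refine ⟨(v.unpair.1 :: l).toFinset, by rw [List.toFinset_card_of_nodup hnd]; simp [hl1],
      fun x hx => ?_, ?_⟩
    · have h10 : x ∈ A ∧ M < x := by
        rcases List.mem_cons.1 (List.mem_toFinset.1 hx) with rfl | h10
        · exact ⟨hs _ ⟨_, h.1.1⟩ h.2, hM2 v h hv2⟩
        · exact ⟨(hl3 x h10).1, by have := (hl3 x h10).2; omega⟩
      exact ⟨h10.1, fun h11 => absurd (hM (Set.mem_iUnion.2 ⟨_, h11⟩)) (not_le.2 h10.2)⟩
    · rw [(List.toFinset_sort _ hnd).2 (hp.imp fun h => h.le)]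
      constructor
      · rintro ⟨y, -, h10, h11⟩
        rwa [show y = v.unpair.2 from Fst.unique h10 ((h6 v hv).2 h.1), List.headI_cons,
          Nat.pair_unpair] at h11
      · intro h10
        exact ⟨v.unpair.2, show _ < l.headI by omega, (h6 v hv).2 h.1, by
          rwa [List.headI_cons, Nat.pair_unpair]⟩
  obtain ⟨ta, h8, h9, h10⟩ := hset a hab.le ha ha2
  obtain ⟨tb, h11, h12, h13⟩ := hset b le_rfl hb (by omega)
  rcases hF2 (col (c l) a) with h | h
  · exact hne (h13.1 (h tb h11 h12)).symm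
  · exact h ta h8 h9 (h10.2 rfl)

theorem neg {k : ℕ} {h : ℕ → ℕ} (hh : Computable h) (hb : BddAbove (Set.range h)) {A : Set ℕ}
    (hA : RCohesive (k + 2) A) : ¬ DiffLevel (k + 2) h A := by
  classical
  rintro ⟨S, hS, hAS⟩
  obtain ⟨B, hB⟩ := hb
  have hB' : ∀ x, h x ≤ B := fun x => hB ⟨x, rfl⟩
  have hC := kk_cl (k + 1)
  let T : ℕ × ℕ → Prop := fun z => z.2 < h z.1 ∧ S (Nat.pair z.1 z.2)
  have hT : Red (KK (k + 2)) T :=
    hC.and (re_red (cp_comp (p := fun z : ℕ × ℕ => z.1 < z.2) Primrec.nat_lt.computablePred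
      (Computable.snd.pair (hh.comp Computable.fst))).to_re _) ((sigma_red _ hS).comp (by fun_prop))
  obtain ⟨τ, hτ⟩ : ∃ τ, {x ∈ A | pre (chi fun i => T (x, i)) B = τ}.Infinite := by
    by_contra hc
    simp only [not_exists, Set.not_infinite] at hc
    exact hA.1 (((Set.finite_Iio (2 ^ B)).biUnion fun τ _ => hc τ).subset fun x hx =>
      Set.mem_biUnion (pre_lt _ _) ⟨hx, rfl⟩)
  have h1 : ∀ x, pre (chi fun i => T (x, i)) B = τ → ∀ i < B, T (x, i) ↔ τ.testBit i = true := by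
    rintro x rfl i hi
    rw [testBit_pre' _ hi, chi_iff]
  obtain ⟨q1, hq1, e1⟩ := jmp_elim (kk_ind (k + 1)).1
    (hC.ball (p := fun z : ℕ × ℕ => τ.testBit z.2 = false ∨ T z) (b := fun _ => B)
      (hC.or (hC.prim (pp_eq (by fun_prop) (by fun_prop))) hT) (by fun_prop))
  obtain ⟨q2, hq2, e2⟩ := jmp_elim (kk_ind (k + 1)).1
    (hC.bex (p := fun z : ℕ × ℕ => τ.testBit z.2 = false ∧ T z) (b := fun _ => B)
      (hC.and (hC.prim (pp_eq (by fun_prop) (by fun_prop))) hT) (by fun_prop))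
  have hD := kk_cl k
  have h2 : ∀ x, ((∃ y, ¬ q1 (x, y)) ∧ ∀ y, q2 (x, y)) ↔
      ∀ i < B, T (x, i) ↔ τ.testBit i = true := by
    intro x
    have h3 : (∀ y, q2 (x, y)) ↔ ¬ ∃ y, ¬ q2 (x, y) := by simp
    rw [← e1, h3, ← e2]
    constructor
    · rintro ⟨h4, h5⟩ i hi
      refine ⟨fun h6 => ?_, fun h6 => (h4 i hi).resolve_left (by simp [h6])⟩
      by_contra h7
      exact h5 ⟨i, hi, by simpa using h7, h6⟩
    · intro h4
      refine ⟨fun i hi => ?_, fun ⟨i, hi, h5, h6⟩ => by simp [(h4 i hi).1 h6] at h5⟩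
      cases h5 : τ.testBit i
      · exact Or.inl rfl
      · exact Or.inr ((h4 i hi).2 h5)
  refine neg_core (q := fun z => (z.1 = 0 ∧ q1 z.2) ∨ (z.1 = 1 ∧ q2 z.2))
    (hD.or (hD.and (hD.prim (pp_eq (by fun_prop) (by fun_prop))) (hq1.comp (by fun_prop)))
      (hD.and (hD.prim (pp_eq (by fun_prop) (by fun_prop))) (hq2.comp (by fun_prop)))) hA
    (fun x h3 h4 => ?_) (hτ.mono fun x hx => ?_)
  · obtain ⟨x0, h5, h6⟩ := hτ.nonempty
    have h7 := (h2 x).1 ⟨by simpa only [true_and, zero_ne_one, false_and, or_false] using h3, by simpa using h4⟩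
    have h8 : {i | T (x, i)} = {i | T (x0, i)} := by
      ext i
      by_cases hi : i < B
      · exact (h7 i hi).trans (h1 x0 h6 i hi).symm
      · exact ⟨fun h => absurd (h.1.trans_le (hB' _)) hi, fun h => absurd (h.1.trans_le (hB' _)) hi⟩
    exact (hAS x).2 (h8 ▸ (hAS x0).1 h5 : Odd {i | T (x, i)}.ncard)
  · simpa only [true_and, zero_ne_one, false_and, or_false, one_ne_zero, false_or, Set.mem_ofPred_eq] using (h2 x).2 (h1 x hx.2)

end Pool.Agent.MP_c357a0_lc

end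

-- part MP_c357a0_lc.Pos
section

/-! An n-cohesive set at every unbounded level of the difference hierarchy over Sigma n. -/

namespace Pool.Agent.MP_c357a0_lc

open Encodable

theorem pre_mono (Z : ℕ → Bool) {m k : ℕ} (h : m ≤ k) : pre Z m ≤ pre Z k := by
  rw [← pre_mod Z h]; exact Nat.mod_le _ _

theorem le_pre {Z : ℕ → Bool} {x : ℕ} (h : Z x = true) : x + 1 ≤ pre Z (x + 1) := by
  have := @Nat.lt_two_pow_self x
  simp only [pre, h, if_true]; omega

theorem pre_sum (Z : ℕ → Bool) (m : ℕ) :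
    pre Z m = ∑ x ∈ (Finset.range m).filter fun x => Z x = true, 2 ^ x := by
  induction m with
  | zero => rfl
  | succ m ih =>
    rw [Finset.sum_filter] at ih ⊢
    rw [Finset.sum_range_succ, ← ih, pre]
    split_ifs <;> omega

theorem TT.at {α : Type} [Primcodable α] {K Z : ℕ → Prop} {p : α × ℕ → Prop} (hp : TT K p)
    (hZ : TT K Z) {b : α → ℕ} (hb : Primrec b) : TT K fun a => p (a, pre (chi Z) (b a)) := by
  have h1 : TT K fun w : (α × ℕ) × ℕ => w.1.2.testBit w.2 = true ↔ Z w.2 :=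
    (TT.prim (pp_eq (by fun_prop) (by fun_prop))).iff (hZ.comp (by fun_prop))
  refine (TT.bex (b := fun a => 2 ^ b a) (hp.and (TT.ball (b := fun w => b w.1) h1
    (by fun_prop))) (by fun_prop)).congr fun a => ⟨fun ⟨s, h2, h3, h4⟩ => ?_, fun h =>
      ⟨_, pre_lt _ _, h, fun i hi => by simp only [testBit_pre' _ hi, chi_iff]⟩⟩
  rw [← eq_pre h2 fun i hi => Bool.eq_iff_iff.2 ((h4 i hi).trans chi_iff.symm)]
  exact h3

theorem Cl0.fam {β : Type} [Primcodable β] {U : ℕ → Prop} (hU : Cl0 U) {c : ℕ → β → Prop}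
    (J : ℕ) (h : ∀ j < J, Red U (c j)) : Red U fun w : ℕ × β => w.1 < J ∧ c w.1 w.2 := by
  induction J with
  | zero => exact hU.prim ((pp_lt (f := fun w : ℕ × β => w.1) (g := fun _ => 0) (by fun_prop)
      (by fun_prop)).of_eq fun w => by simp)
  | succ J ih =>
    refine (hU.or (ih fun j hj => h j (by omega)) (hU.and (hU.prim (pp_eq
      (f := fun w : ℕ × β => w.1) (g := fun _ => J) (by fun_prop) (by fun_prop)))
      ((h J (by omega)).comp (f := fun w : ℕ × β => w.2) (by fun_prop)))).congr fun w => ?_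
    constructor
    · rintro (⟨h1, h2⟩ | ⟨h1, h2⟩)
      · exact ⟨by omega, h2⟩
      · exact ⟨by omega, h1 ▸ h2⟩
    · rintro ⟨h1, h2⟩
      rcases Nat.lt_succ_iff_lt_or_eq.1 h1 with h3 | h3
      · exact Or.inl ⟨h3, h2⟩
      · exact Or.inr ⟨h3, h3 ▸ h2⟩

/-- the last level: a greedy set that follows the best state -/
theorem final {K : ℕ → Prop} {O B : ℕ × ℕ → Prop} (hO : TT K O) (hB : TT K B) (hb : Base O)
    (hex : TT K fun w : ℕ × ℕ × ℕ => ∃ y, w.1 < y ∧ O (w.1, y) ∧ B (w.2.1, y) ∧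
      ∀ e < w.2.1, w.2.2.testBit e = true → B (e, y)) :
    ∃ a : ℕ → Bool, TT K (fun x => a x = true) ∧ (∀ m, ∃ x, m ≤ x ∧ a x = true) ∧
      (∀ x, a x = true → pre a x < x ∧ O (pre a x, x)) ∧
      ∀ e, ∃ M, ∃ b : Prop, ∀ x, M ≤ x → a x = true → (B (e, x) ↔ b) := by
  let F : ℕ → ℕ → ℕ → Prop := fun δ k σ => ∃ y, δ < y ∧ O (δ, y) ∧ B (k, y) ∧
    ∀ e < k, σ.testBit e = true → B (e, y)
  choose d hd using fun δ => exists_rec (F δ)
  have hdT : TT K fun z : ℕ × ℕ => d z.1 z.2 = true := TT.recur hex hd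
  let G : ℕ → ℕ → Prop := fun x δ => δ < x ∧ O (δ, x) ∧ ∀ e < δ, d δ e = true → B (e, x)
  obtain ⟨a, ha⟩ := exists_rec G
  have h1 : TT K fun w : (Unit × ℕ × ℕ) × ℕ => d w.1.2.2 w.2 = true → B (w.2, w.1.2.1) :=
    ((hdT.comp (f := fun w : (Unit × ℕ × ℕ) × ℕ => (w.1.2.2, w.2)) (by fun_prop)).and
      (hB.comp (f := fun w : (Unit × ℕ × ℕ) × ℕ => (w.2, w.1.2.1)) (by fun_prop)).not).not.congr
      fun w => by simp
  have hG : TT K fun w : Unit × ℕ × ℕ => G w.2.1 w.2.2 :=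
    (TT.prim (pp_lt (by fun_prop) (by fun_prop))).and ((hO.comp (by fun_prop)).and
      (TT.ball h1 (by fun_prop)))
  have inv : ∀ δ k, ∃ y, δ < y ∧ O (δ, y) ∧ ∀ e < k, d δ e = true → B (e, y) := by
    intro δ k
    induction k with
    | zero => exact (hb.inf δ).imp fun y h => ⟨h.1, h.2, by simp⟩
    | succ k ih =>
      by_cases hk : d δ k = true
      · obtain ⟨y, h2, h3, h4, h5⟩ := (hd δ k).1 hk
        refine ⟨y, h2, h3, fun e he h => ?_⟩
        rcases Nat.lt_succ_iff_lt_or_eq.1 he with h6 | rfl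
        · exact h5 e h6 ((testBit_pre' _ h6).trans h)
        · exact h4
      · refine ih.imp fun y h => ⟨h.1, h.2.1, fun e he h2 => h.2.2 e ?_ h2⟩
        rcases Nat.lt_succ_iff_lt_or_eq.1 he with h6 | rfl
        · exact h6
        · exact absurd h2 hk
  have next : ∀ m, m ≤ pre a m → ∃ x, m ≤ x ∧ a x = true := by
    intro m hm
    by_contra hc
    have h2 : ∀ y, m ≤ y → pre a y = pre a m := by
      intro y hy
      induction hy with
      | refl => rfl
      | step hy ih => rw [pre, if_neg fun h => hc ⟨_, hy, h⟩, ih]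
    obtain ⟨y, hy⟩ := inv (pre a m) (pre a m)
    exact hc ⟨y, by omega, (ha y).2 (by rw [h2 y (by omega)]; exact hy)⟩
  have hinf : ∀ m, ∃ x, m ≤ x ∧ a x = true := by
    intro m
    induction m with
    | zero => exact next 0 (Nat.zero_le _)
    | succ m ih =>
      obtain ⟨x, h2, h3⟩ := ih
      exact (next (x + 1) (le_pre h3)).imp fun y h => ⟨by omega, h.2⟩
  have conv : ∀ k, ∃ D σ, ∀ δ, D ≤ δ → pre (d δ) k = σ := by
    intro k
    induction k with
    | zero => exact ⟨0, 0, fun _ _ => rfl⟩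
    | succ k ih =>
      obtain ⟨D, σ, h2⟩ := ih
      by_cases h3 : ∀ δ, D ≤ δ → d δ k = true
      · exact ⟨D, 2 ^ k + σ, fun δ h => by rw [pre, if_pos (h3 δ h), h2 δ h]⟩
      · obtain ⟨D', h4⟩ := not_forall.1 h3
        obtain ⟨h4, h5⟩ := Classical.not_imp.1 h4
        refine ⟨D', σ, fun δ h => ?_⟩
        rw [pre, if_neg, h2 δ (by omega)]
        intro h6
        obtain ⟨y, h7, h8, h9⟩ := (hd δ k).1 h6
        rw [h2 δ (by omega), ← h2 D' h4] at h9
        exact h5 ((hd D' k).2 ⟨y, by omega, hb.anti _ _ _ h h8, h9⟩)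
  refine ⟨a, (TT.recur (d := fun _ : Unit => a) hG fun _ k => ha k).comp
    (f := fun k => ((), k)) (by fun_prop), hinf,
    fun x h => ⟨((ha x).1 h).1, ((ha x).1 h).2.1⟩, fun e => ?_⟩
  obtain ⟨D, σ, h2⟩ := conv (e + 1)
  obtain ⟨x0, h3, h4⟩ := hinf (D + e)
  refine ⟨x0 + 1, σ.testBit e = true, fun x hx h => ?_⟩
  have h5 := (le_pre h4).trans (pre_mono a hx)
  obtain ⟨h6, h7, h8⟩ := (ha x).1 h
  rw [← h2 (pre a x) (by omega), testBit_pre' _ (Nat.lt_succ_self e)]
  exact ⟨fun h9 => (hd _ _).2 ⟨x, h6, h7, h9, fun e' he h10 =>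
    h8 e' (by omega) ((testBit_pre' _ he).symm.trans h10)⟩, h8 e (by omega)⟩

/-- the increasing list of the bits of `u` -/
def lst (u : ℕ) : List ℕ := (List.range u).filter fun x => decide (u.testBit x = true)

theorem lst_prim : Primrec lst :=
  (PrimrecRel.listFilter (R := fun x u : ℕ => u.testBit x = true)
    (pp_eq (by fun_prop) (by fun_prop))).comp Primrec.list_range Primrec.id

theorem lst_sum (s : Finset ℕ) : lst (∑ x ∈ s, 2 ^ x) = s.sort (· ≤ ·) := by
  obtain ⟨M, hM⟩ := s.bddAbove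
  have h1 : ∑ x ∈ s, 2 ^ x = pre (fun x => decide (x ∈ s)) (M + 1) := by
    rw [pre_sum]
    congr 1
    ext x
    simpa only [decide_eq_true_eq, Finset.mem_filter, Finset.mem_range, Order.lt_add_one_iff, iff_and_self, SetLike.mem_coe] using fun h => hM h
  have h2 : (lst (∑ x ∈ s, 2 ^ x)).Pairwise (· < ·) := List.pairwise_lt_range.filter _
  rw [← (List.toFinset_sort _ (h2.imp fun h => h.ne)).2 (h2.imp fun h => h.le)]
  congr 1
  ext x
  simp only [lst, List.mem_toFinset, List.mem_filter, List.mem_range, decide_eq_true_eq]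
  constructor
  · rintro ⟨-, h⟩
    rw [h1, testBit_pre] at h
    simpa using (Bool.and_eq_true_iff.1 h).2
  · intro h
    refine ⟨Nat.lt_two_pow_self.trans_le
      (Finset.single_le_sum (f := fun x => 2 ^ x) (fun _ _ => Nat.zero_le _) h), ?_⟩
    rw [h1, testBit_pre' _ (Nat.lt_succ_of_le (hM h))]
    simpa using h

theorem pair_le {a b c d : ℕ} (h : a ≤ c) (h' : b ≤ d) : Nat.pair a b ≤ Nat.pair c d := by
  refine le_trans (b := Nat.pair c b) ?_ ?_
  · exact h.eq_or_lt.elim (fun e => e ▸ le_rfl) fun h => (Nat.pair_lt_pair_left _ h).le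
  · exact h'.eq_or_lt.elim (fun e => e ▸ le_rfl) fun h => (Nat.pair_lt_pair_right _ h).le

theorem pos_tt {c0 : ℕ × ℕ → Prop} (h0 : Red (KK 1) c0) (J : ℕ) :
    ∃ a : ℕ → Bool, TT (KK (J + 1)) (fun x => a x = true) ∧ (∀ m, ∃ x, m ≤ x ∧ a x = true) ∧
      ∀ e, ∃ M, ∃ b : Prop, ∀ s : Finset ℕ, s.card = J + 1 → (∀ x ∈ s, M ≤ x ∧ a x = true) →
        (c0 (e, ∑ x ∈ s, 2 ^ x) ↔ b) := by
  obtain ⟨U, hU, hT, hK, Y, hY, hb, c, rfl, hcJ, hc⟩ := tower h0 J
  let Z : ℕ → Prop := fun k => k.unpair.1 < J ∧ c (k.unpair.1 + 1) k.unpair.2.unpair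
  have hZ : Red U Z :=
    (hU.toCl0.fam (c := fun j => c (j + 1)) J fun j hj => by
      rcases Nat.lt_iff_add_one_le.1 hj |>.eq_or_lt with h | h
      · exact h ▸ hcJ
      · exact (hc _ h).1.trans hK).comp
      (f := fun k : ℕ => (k.unpair.1, k.unpair.2.unpair)) (by fun_prop)
  let ex : ℕ → ℕ → ℕ × ℕ := fun k y => (k.unpair.2.unpair.1, 2 ^ y + k.unpair.2.unpair.2)
  let R : (ℕ × ℕ) × ℕ → Prop := fun w => Y w.1 ∧ ∀ k < Nat.pair J (Nat.pair w.1.1 w.1.1) + 1,
    J ≤ k.unpair.1 ∨ ((k.unpair.1 < J ∧ c k.unpair.1 (ex k w.1.2)) ∧ w.2.testBit k = false) ∨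
      ((k.unpair.1 < J ∧ ¬ c k.unpair.1 (ex k w.1.2)) ∧ w.2.testBit k = true)
  have hg : Primrec fun w : ((ℕ × ℕ) × ℕ) × ℕ => (w.2.unpair.1, ex w.2 w.1.1.2) := by
    simp only [ex]; fun_prop
  have hR : Red U R :=
    hU.and (hY.comp (by fun_prop)) (hU.ball (p := fun w : ((ℕ × ℕ) × ℕ) × ℕ =>
        J ≤ w.2.unpair.1 ∨ ((w.2.unpair.1 < J ∧ c w.2.unpair.1 (ex w.2 w.1.1.2)) ∧
          w.1.2.testBit w.2 = false) ∨
        ((w.2.unpair.1 < J ∧ ¬ c w.2.unpair.1 (ex w.2 w.1.1.2)) ∧ w.1.2.testBit w.2 = true))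
      (hU.or (hU.prim (pp_le (by fun_prop) (by fun_prop)))
        (hU.or (hU.and ((hU.toCl0.fam J fun j hj => (hc j hj).1.trans hK).comp hg)
            (hU.prim (pp_eq (by fun_prop) (by fun_prop))))
          (hU.and ((hU.toCl0.fam (c := fun j z => ¬ c j z) J
              fun j hj => (hc j hj).2.1.trans hK).comp hg)
            (hU.prim (pp_eq (by fun_prop) (by fun_prop)))))) (by fun_prop))
  let O : ℕ × ℕ → Prop := fun z => R (z, pre (chi Z) (Nat.pair J (Nat.pair z.1 z.1) + 1))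
  have hO : ∀ δ y, O (δ, y) ↔ Y (δ, y) ∧ ∀ k < Nat.pair J (Nat.pair δ δ) + 1, k.unpair.1 < J →
      (c k.unpair.1 (ex k y) ↔ ¬ c (k.unpair.1 + 1) k.unpair.2.unpair) := by
    intro δ y
    refine and_congr_right fun _ => forall₂_congr fun k hk => ?_
    simp only [testBit_pre' _ hk, ← Bool.not_eq_true, chi_iff, Z, ← not_lt]
    tauto
  let B : ℕ × ℕ → Prop := fun z => c J (z.1, 2 ^ z.2)
  have hB : Red U B := hcJ.comp (by fun_prop)
  have h1 : Red U fun w : (ℕ × ℕ × ℕ) × ℕ => ∃ y, w.1.1 < y ∧ R ((w.1.1, y), w.2) ∧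
      B (w.1.2.1, y) ∧ ∀ e < w.1.2.1, w.1.2.2.testBit e = false ∨ B (e, y) :=
    hU.ex (p := fun v : ((ℕ × ℕ × ℕ) × ℕ) × ℕ => v.1.1.1 < v.2 ∧ R ((v.1.1.1, v.2), v.1.2) ∧
        B (v.1.1.2.1, v.2) ∧ ∀ e < v.1.1.2.1, v.1.1.2.2.testBit e = false ∨ B (e, v.2))
      (hU.and (hU.prim (pp_lt (by fun_prop) (by fun_prop))) (hU.and (hR.comp (by fun_prop))
        (hU.and (hB.comp (by fun_prop)) (hU.ball (p := fun u : (((ℕ × ℕ × ℕ) × ℕ) × ℕ) × ℕ =>
            u.1.1.1.2.2.testBit u.2 = false ∨ B (u.2, u.1.2))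
          (hU.or (hU.prim (pp_eq (by fun_prop) (by fun_prop))) (hB.comp (by fun_prop)))
          (by fun_prop)))))
  obtain ⟨a, ha1, ha2, ha3, ha4⟩ := final (O := O) (B := B)
    ((hT.red hR).at (hT.red hZ) (by fun_prop)) (hT.red hB) ⟨fun i j y h h2 => by
      rw [hO] at h2 ⊢
      exact ⟨hb.anti _ _ _ h h2.1, fun k hk => h2.2 k (hk.trans_le
        (Nat.succ_le_succ (pair_le le_rfl (pair_le h h))))⟩, fun δ => by
      obtain ⟨s, hs⟩ := bound (Finset.range (Nat.pair J (Nat.pair δ δ) + 1)) fun k i =>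
        ∀ y, i < y → Y (i, y) → (c k.unpair.1 (ex k y) ↔ ¬ c (k.unpair.1 + 1) k.unpair.2.unpair)
      obtain ⟨y, h2, h3⟩ := hb.inf (δ + s)
      refine ⟨y, by omega, (hO _ _).2 ⟨hb.anti _ _ _ (by omega) h3, fun k hk h4 => ?_⟩⟩
      obtain ⟨i, h5, h6⟩ := hs k (Finset.mem_range.2 hk) ((hc _ h4).2.2 _ _)
      exact h6 y (by omega) (hb.anti _ _ _ (by omega) h3)⟩
    (((hT.red h1).at (hT.red hZ) (b := fun w => Nat.pair J (Nat.pair w.1 w.1) + 1)
      (by fun_prop)).congr fun w => by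
        simp only [← Bool.not_eq_true, ← imp_iff_not_or]; rfl)
  refine ⟨a, ha1, ha2, fun e => ?_⟩
  obtain ⟨M, b, hM⟩ := ha4 e
  obtain ⟨x0, h2, h3⟩ := ha2 (M + e)
  have key : ∀ m j, j + m = J → ∃ b : Prop, ∀ s : Finset ℕ, s.card = m + 1 →
      (∀ x ∈ s, x0 + 1 ≤ x ∧ a x = true) → (c j (e, ∑ x ∈ s, 2 ^ x) ↔ b) := by
    intro m
    induction m with
    | zero =>
      rintro j rfl
      refine ⟨b, fun s hs h => ?_⟩
      obtain ⟨x, rfl⟩ := Finset.card_eq_one.1 hs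
      have h4 := h x (Finset.mem_singleton_self x)
      rw [Finset.sum_singleton]
      exact hM x (by omega) h4.2
    | succ m ih =>
      intro j hj
      obtain ⟨b', hb'⟩ := ih (j + 1) (by omega)
      refine ⟨¬ b', fun s hs h => ?_⟩
      obtain ⟨y, hy, hy2⟩ := s.exists_max_image id (Finset.card_pos.1 (by omega))
      have h4 : ∑ x ∈ s.erase y, 2 ^ x ≤ pre a y := by
        rw [pre_sum]
        refine Finset.sum_le_sum_of_subset fun x hx => ?_
        obtain ⟨h5, h6⟩ := Finset.mem_erase.1 hx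
        exact Finset.mem_filter.2 ⟨Finset.mem_range.2 (lt_of_le_of_ne (hy2 x h6) h5), (h x h6).2⟩
      have h5 := (le_pre h3).trans (pre_mono a (h y hy).1)
      have h6 := ((hO _ _).1 (ha3 y (h y hy).2).2).2
        (Nat.pair j (Nat.pair e (∑ x ∈ s.erase y, 2 ^ x)))
        (Nat.lt_succ_of_le (pair_le (by omega) (pair_le (by omega) h4))) (by simp; omega)
      simp only [ex, Nat.unpair_pair] at h6
      rw [← Finset.add_sum_erase s _ hy, h6, hb' (s.erase y)
        (by rw [Finset.card_erase_of_mem hy]; omega) fun x hx => h x (Finset.mem_of_mem_erase hx)]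
  exact ⟨x0 + 1, key J 0 (by omega)⟩

theorem count_par {S : ℕ → Prop} [DecidablePred S] {τ : ℕ}
    (h : ∀ t, t ≠ τ → (S (2 * t) ↔ S (2 * t + 1))) (h' : ¬ S (2 * τ + 1)) (N : ℕ) :
    Nat.count S (2 * N) % 2 = 1 ↔ τ < N ∧ S (2 * τ) := by
  induction N with
  | zero => simp
  | succ N ih =>
    rw [show 2 * (N + 1) = 2 * N + 1 + 1 by ring, Nat.count_succ, Nat.count_succ]
    by_cases h1 : N = τ
    · subst h1
      simp only [lt_irrefl, false_and, iff_false] at ih
      rw [if_neg h']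
      by_cases h2 : S (2 * N) <;> simp [h2] <;> omega
    · have h2 : τ < N + 1 ↔ τ < N := by omega
      rw [h2, ← ih]
      by_cases h3 : S (2 * N)
      · rw [if_pos h3, if_pos ((h N h1).1 h3)]; omega
      · rw [if_neg h3, if_neg (mt (h N h1).2 h3)]; omega

theorem census {n : ℕ} {p : ℕ → Prop} (hp : TT (KK (n + 1)) p) :
    ∃ g : ℕ → ℕ, Primrec g ∧ ∃ S : ℕ × ℕ → Prop, Red (KK (n + 1)) S ∧
      ∀ x, p x ↔ Odd {i | i < g x ∧ S (x, i)}.ncard := by
  classical
  obtain ⟨G, hG, B, hB, h⟩ := hp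
  have hC := kk_cl n
  let T : ℕ × ℕ → Prop := fun z => ∀ i < G z.1, z.2.testBit i = false ∨ KK (n + 1) i
  have hT : Red (KK (n + 1)) T :=
    hC.ball (p := fun w : (ℕ × ℕ) × ℕ => w.1.2.testBit w.2 = false ∨ KK (n + 1) w.2)
      (hC.or (hC.prim (pp_eq (by fun_prop) (by fun_prop))) ((Red.refl _).comp (by fun_prop)))
      (by fun_prop)
  let S : ℕ × ℕ → Prop := fun z => T (z.1, z.2 / 2) ∧ (B (z.1, z.2 / 2) ∧ z.2 / 2 < 2 ^ G z.1) ∧
    (z.2 % 2 = 0 ∨ ∃ t < 2 ^ G z.1, z.2 / 2 < t ∧ T (z.1, t))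
  refine ⟨fun x => 2 * 2 ^ G x, by fun_prop, S, hC.and (hT.comp (by fun_prop))
    (hC.and (hC.prim ((hB.comp (by fun_prop)).and (pp_lt (by fun_prop) (by fun_prop))))
      (hC.or (hC.prim (pp_eq (by fun_prop) (by fun_prop)))
        (hC.bex (p := fun w : (ℕ × ℕ) × ℕ => w.1.2 / 2 < w.2 ∧ T (w.1.1, w.2))
          (hC.and (hC.prim (pp_lt (by fun_prop) (by fun_prop))) (hT.comp (by fun_prop)))
          (by fun_prop)))), fun x => ?_⟩
  have h1 : T (x, pre (chi (KK (n + 1))) (G x)) := fun i hi => by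
    simp only [testBit_pre' _ hi, ← Bool.not_eq_true, chi_iff]
    exact (em _).symm
  have h2 : ∀ t < 2 ^ G x, T (x, t) → t ≤ pre (chi (KK (n + 1))) (G x) := by
    intro t ht h3
    rw [← Nat.mod_eq_of_lt ht, ← pre_testBit, pre_sum, pre_sum]
    refine Finset.sum_le_sum_of_subset fun i hi => ?_
    rw [Finset.mem_filter] at hi ⊢
    exact ⟨hi.1, chi_iff.2 ((h3 i (Finset.mem_range.1 hi.1)).resolve_left (by simp [hi.2]))⟩
  have h3 : {i | i < 2 * 2 ^ G x ∧ S (x, i)}.ncard = Nat.count (fun i => S (x, i)) (2 * 2 ^ G x) := by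
    rw [Nat.count_eq_card_filter_range, ← Set.ncard_coe_finset]
    congr 1
    ext i
    simp
  have e1 : ∀ t, 2 * t / 2 = t := fun t => by omega
  have e2 : ∀ t, (2 * t + 1) / 2 = t := fun t => by omega
  have e3 : ∀ t, 2 * t % 2 = 0 := fun t => by omega
  have e4 : ∀ t, ¬ (2 * t + 1) % 2 = 0 := fun t => by omega
  rw [h, h3, Nat.odd_iff, count_par (τ := pre (chi (KK (n + 1))) (G x))]
  · simp only [S, e1, e3, h1, pre_lt, true_or, true_and, and_true]
  · intro t ht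
    simp only [S, e1, e2, e3, e4, true_or, false_or, and_true]
    exact ⟨fun h4 => ⟨h4.1, h4.2, _, pre_lt _ _, lt_of_le_of_ne (h2 t h4.2.2 h4.1) ht, h1⟩,
      fun h4 => ⟨h4.1, h4.2.1⟩⟩
  · simp only [S, e2, e4, false_or]
    rintro ⟨-, -, t, h4, h5, h6⟩
    exact absurd (h2 t h4 h6) (not_le.2 h5)

theorem spread {g h : ℕ → ℕ} (hg : Primrec g) (hh : Computable h)
    (hb : ¬ BddAbove (Set.range h)) :
    ∃ p : ℕ → ℕ, Computable p ∧ StrictMono p ∧ ∀ j, g j ≤ h (p j) := by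
  have h1 : ∀ z : ℕ × ℕ, ∃ x, z.1 ≤ x ∧ z.2 ≤ h x := by
    rintro ⟨m, v⟩
    by_contra hc
    obtain ⟨s, hs⟩ := bound (Finset.range m) fun x y => h x = y
    refine hb ⟨s + v, ?_⟩
    rintro _ ⟨x, rfl⟩
    by_cases hx : x < m
    · obtain ⟨y, h2, h3⟩ := hs x (Finset.mem_range.2 hx) ⟨_, rfl⟩
      omega
    · have : ¬ v ≤ h x := fun h2 => hc ⟨x, not_lt.1 hx, h2⟩
      omega
  have h2 : Computable fun z => Nat.find (h1 z) :=
    Computable.find (cp_comp (p := fun w : ((ℕ × ℕ) × ℕ) × ℕ => w.1.1.1 ≤ w.1.2 ∧ w.1.1.2 ≤ w.2)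
      ((pp_le (by fun_prop) (by fun_prop)).and (pp_le (by fun_prop) (by fun_prop))).computablePred
      (Computable.id.pair (hh.comp Computable.snd))) h1
  refine ⟨fun j => Nat.rec (Nat.find (h1 (0, g 0))) (fun i x => Nat.find (h1 (x + 1, g (i + 1)))) j,
    Computable.nat_rec (h := fun _ z => Nat.find (h1 (z.2 + 1, g (z.1 + 1)))) Computable.id
      (Computable.const _) (h2.comp (Primrec.to_comp
        (f := fun w : ℕ × ℕ × ℕ => (w.2.2 + 1, g (w.2.1 + 1))) (by fun_prop))),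
    strictMono_nat_of_lt_succ fun j => (Nat.find_spec (h1 (_, g (j + 1)))).1, fun j => ?_⟩
  cases j with
  | zero => exact (Nat.find_spec (h1 (0, g 0))).2
  | succ j => exact (Nat.find_spec (h1 (_, g (j + 1)))).2

theorem map_comp {p : ℕ → ℕ} (hp : Computable p) : Computable fun l : List ℕ => l.map p := by
  have h := Computable.nat_rec (f := fun l : List ℕ => l.length) (g := fun _ => ([] : List ℕ))
    (h := fun l z => z.2 ++ [p (l.getD z.1 0)]) Computable.list_length (Computable.const _)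
    (Computable.list_concat.comp (Computable.snd.comp Computable.snd) (hp.comp
      ((Primrec.list_getD 0).to_comp.comp Computable.fst (Computable.fst.comp Computable.snd))))
  refine h.of_eq fun l => ?_
  have h2 : ∀ k ≤ l.length, Nat.rec (motive := fun _ => List ℕ) []
      (fun y IH => IH ++ [p (l.getD y 0)]) k = (l.take k).map p := by
    intro k hk
    induction k with
    | zero => rfl
    | succ k ih =>
      simp only [ih (by omega)]
      rw [List.take_succ_eq_append_getElem (by omega), List.getD_eq_getElem _ _ (by omega),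
        List.map_append, List.map_singleton]
  simpa only [List.getD_eq_getElem?_getD, List.take_length] using h2 _ le_rfl

theorem pos (J : ℕ) {h : ℕ → ℕ} (hh : Computable h) (hb : ¬ BddAbove (Set.range h)) :
    ∃ A, Cohesive (J + 1) A ∧ DiffLevel (J + 1) h A := by
  classical
  obtain ⟨a, h1, h2, h3⟩ := pos_tt (c0 := fun z => KK 1 (Nat.pair z.1 (encode (lst z.2))))
    ((Red.refl _).comp (by have := lst_prim; fun_prop)) J
  obtain ⟨g, hg, S, hS, h4⟩ := census h1
  obtain ⟨p, hp, hm, h5⟩ := spread hg hh hb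
  have hC := kk_cl J
  refine ⟨p '' {x | a x = true}, ⟨?_, fun C hc => ?_⟩,
    fun z => ∃ j, p j = z.unpair.1 ∧ z.unpair.2 < g j ∧ S (j, z.unpair.2), red_sigma _ ?_,
    fun x => ?_⟩
  · exact (Set.infinite_of_forall_exists_gt fun m =>
      (h2 (m + 1)).imp fun x h => ⟨h.2, h.1⟩).image hm.injective.injOn
  · obtain ⟨e, he⟩ := re_sharp (p := fun l : List ℕ => C (l.map p)) (Partrec.comp hc (map_comp hp))
    obtain ⟨M, b, hM⟩ := h3 e
    have h6 : ∀ s : Finset ℕ, s.card = J + 1 → (s : Set ℕ) ⊆ p '' {x | a x = true} \ p '' Set.Iio M →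
        (C (s.sort (· ≤ ·)) ↔ b) := by
      intro s h6 h7
      obtain ⟨t, h8, rfl⟩ := Finset.subset_set_image_iff.1 (h7.trans Set.sdiff_subset)
      rw [Finset.card_image_of_injective _ hm.injective] at h6
      rw [← hM t h6 fun x hx => ⟨not_lt.1 fun h9 => (h7 (Finset.mem_coe.2
        (Finset.mem_image_of_mem p hx))).2 ⟨x, h9, rfl⟩, h8 hx⟩, lst_sum, ← he]
      have h9 := Finset.map_sort ⟨p, hm.injective⟩ t (· ≤ ·) (· ≤ ·)
        fun _ _ _ _ => hm.le_iff_le.symm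
      rw [Finset.map_eq_image] at h9
      exact iff_of_eq (congrArg C h9.symm)
    refine ⟨p '' Set.Iio M, (Set.finite_Iio M).image p, ?_⟩
    by_cases h7 : b
    · exact Or.inl fun s h8 h9 => (h6 s h8 h9).2 h7
    · exact Or.inr fun s h8 h9 => mt (h6 s h8 h9).1 h7
  · exact hC.ex (p := fun w : ℕ × ℕ =>
        p w.2 = w.1.unpair.1 ∧ w.1.unpair.2 < g w.2 ∧ S (w.2, w.1.unpair.2))
      (hC.and (re_red (cp_comp (p := fun v : (ℕ × ℕ) × ℕ => v.2 = v.1.1.unpair.1)
          (pp_eq (by fun_prop) (by fun_prop)).computablePred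
          (Computable.id.pair (hp.comp Computable.snd))).to_re _)
        (hC.and (hC.prim (pp_lt (by fun_prop) (by fun_prop))) (hS.comp (by fun_prop))))
  · simp only [Nat.unpair_pair]
    by_cases hx : ∃ j, p j = x
    · obtain ⟨j, rfl⟩ := hx
      rw [hm.injective.mem_set_image, Set.mem_ofPred_eq, h4]
      simp only [hm.injective.eq_iff, exists_eq_left]
      refine iff_of_eq (congrArg (fun T : Set ℕ => Odd T.ncard) (Set.ext fun i => ?_))
      exact ⟨fun h6 => ⟨h6.1.trans_le (h5 j), h6⟩, fun h6 => h6.2⟩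
    · have h6 : {i | i < h x ∧ ∃ j, p j = x ∧ i < g j ∧ S (j, i)} = ∅ :=
        Set.eq_empty_of_forall_notMem fun i ⟨_, j, h6, _⟩ => hx ⟨j, h6⟩
      rw [h6]
      simpa only [Set.mem_image, Set.mem_ofPred_eq, Set.ncard_empty, Nat.not_odd_zero, iff_false, not_exists, not_and, imp_false] using fun j _ h7 => hx ⟨j, h7⟩

end Pool.Agent.MP_c357a0_lc

end
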